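import Pool.Agent.N110.Defs

/-!
Definitions: the inequality `κ ≥ k` for the Kodaira dimension, abundance, and the growth rank of a
group `ℤ ^ r` of birational self-maps.
-/

set_option autoImplicit false

open FF Pool.Agent.W602.GT Pool.Agent.Y172 Pool.Agent.R887

namespace Pool.Agent.N110

section

variable {K : Type} [Field K] [Algebra ℂ K] {N : ℕ}

/-- The Kodaira dimension of `K_X + Δ` is at least `k`, `n` being the dimension of `X`: there are
sections `ω 0, ..., ω k` of `m (K_X + Δ)` for some `m ≥ 1` such that the functions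
`ω 1 / ω 0, ..., ω k / ω 0` are algebraically independent. In particular it is at least `0` if
`m (K_X + Δ)` has a section `ω 0 ≠ 0`. -/
def KappaGe (y : Fin (N + 1) → K) (n : ℕ) (Δ : Place ℂ K → ℚ) (k : ℕ) : Prop :=
  ∃ m : ℕ, 1 ≤ m ∧ ∃ (ω : Fin (k + 1) → (Fin n → Derivation ℂ K K) → K)
    (E : Fin n → Derivation ℂ K K), (∀ j, IsSection y n m (m • Δ) (ω j)) ∧ ω 0 E ≠ 0 ∧
      AlgebraicIndependent ℂ (fun i : Fin k => ω i.succ E / ω 0 E)

/-- The Kodaira dimension and the numerical dimension of `K_X + Δ` are equal and not `-∞`: for some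
`k` the Kodaira dimension is at least `k` and the numerical dimension is less than `k + 1`. -/
def Abundant (y : Fin (N + 1) → K) (n : ℕ) (Δ : Place ℂ K → ℚ) : Prop :=
  ∃ k : ℕ, KappaGe y n Δ k ∧ NumDimLt y n Δ (k + 1)

/-- Let `ℤ ^ r` act on `X` by birational self-maps `f_v`, given by the automorphisms `φ v` of the
function field. The degrees `f_v^* H · H ^ (n - 1)` grow subexponentially along the ray through the
vector `w` of `ℝ ^ r`: for all `ε > 0` they are at most `B exp (ε l)` for the lattice points `v` near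
`l w`, for all `l ≥ 0`. -/
def Subexp {r : ℕ} (φ : (Fin r → ℤ) → (K ≃ₐ[ℂ] K)) (y : Fin (N + 1) → K) (n : ℕ)
    (w : Fin r → ℝ) : Prop :=
  ∀ ε : ℝ, 0 < ε → ∃ B : ℝ, ∀ (l : ℕ) (v : Fin r → ℤ), (∀ i, |(v i : ℝ) - l * w i| < 1) →
    mixedDegree (φ v) y n 1 ≤ ENNReal.ofReal (B * Real.exp (ε * l))

/-- The growth rank of the action of `ℤ ^ r` on `X` is at least `s`: every linear subspace `W` of
`ℝ ^ r` such that the degrees grow subexponentially along all vectors in `W` has codimension at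
least `s`. -/
def GrowthRankGe {r : ℕ} (φ : (Fin r → ℤ) → (K ≃ₐ[ℂ] K)) (y : Fin (N + 1) → K) (n s : ℕ) : Prop :=
  ∀ W : Submodule ℝ (Fin r → ℝ), (∀ w ∈ W, Subexp φ y n w) → Module.finrank ℝ W + s ≤ r

/-- The degrees of the maps `f_v` grow exponentially in all directions of `ℤ ^ r`: they are at least
`c exp (δ |v|)` for some `c, δ > 0`. -/
def ExpGrowth {r : ℕ} (φ : (Fin r → ℤ) → (K ≃ₐ[ℂ] K)) (y : Fin (N + 1) → K) (n : ℕ) : Prop :=
  ∃ c δ : ℝ, 0 < c ∧ 0 < δ ∧ ∀ v : Fin r → ℤ,
    ENNReal.ofReal (c * Real.exp (δ * ∑ i, |(v i : ℝ)|)) ≤ mixedDegree (φ v) y n 1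

end

end Pool.Agent.N110
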