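import Pool.Agent.N110.RK.Rank

/-!
The trivial sequence of elements: numerical dimension zero.
-/

set_option autoImplicit false

open Multiset Filter Topology Module

namespace Pool.Agent.N110.RK

variable {α : Type} {n r : ℕ} {t : Multiset α → ℝ} {φ : Lat r → α → α}
  {mul : α → α → α} {H : α}

theorem triv_rsys (hpos : ∀ s : Multiset α, s.card = n → 0 < t s) (hex : Exch n t) (hn : 0 < n)
    (hφ0 : φ 0 = id) (hφ : ∀ u v, φ (u + v) = φ u ∘ φ v)
    (hinv : ∀ u (s : Multiset α), s.card = n → t (s.map (φ u)) = t s)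
    (hmul : ∀ a b (s : Multiset α), s.card + 1 = n →
      t (mul a b ::ₘ s) = t (a ::ₘ s) + t (b ::ₘ s)) :
    RSys n r t φ mul H (fun q : ℕ => (q : ℝ) + 1) (fun (a : ℕ) (_ : ℕ) => RSys.D mul H H a) 0 1
      (t (replicate n H)) := by
  have hD : ∀ (a : ℕ) (s : Multiset α), s.card + 1 = n →
      t (RSys.D mul H H a ::ₘ s) = (a + 1) * t (H ::ₘ s) := by
    intro a s hs
    induction a with
    | zero => simp [RSys.D]
    | succ a ih =>
      rw [RSys.D, hmul _ _ _ hs, ih]
      push_cast
      ring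
  have hH : 0 < t (replicate n H) := hpos _ (card_replicate _ _)
  have hHs : ∀ s : Multiset α, s.card + 1 = n → 0 < t (H ::ₘ s) := fun s hs =>
    hpos _ (by rw [card_cons]; exact hs)
  have hneg : ∀ u, φ u ∘ φ (-u) = id := by
    intro u
    have h1 := hφ u (-u)
    rw [add_neg_cancel, hφ0] at h1
    exact h1.symm
  refine ⟨hpos, hex, hn, Nat.zero_le _, one_pos, hH, hφ0, hφ, hinv, hmul, fun q => by positivity,
    ?_, ?_, ?_, ?_, ?_, ?_⟩
  · exact tendsto_atTop_add_const_right _ _ tendsto_natCast_atTop_atTop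
  · intro a a' haa q s hs
    rw [hD a s hs, hD a' s hs, one_mul]
    have h1 : (a : ℝ) ≤ a' := by exact_mod_cast haa
    exact mul_le_mul_of_nonneg_right (by linarith) (hHs s hs).le
  · intro u a
    -- the constant
    obtain ⟨C, hC⟩ : ∃ C : ℝ, C = 4 ^ (n - 1) * t (φ u H ::ₘ replicate (n - 1) H) /
      t (replicate n H) := ⟨_, rfl⟩
    have hdom : ∀ s : Multiset α, s.card + 1 = n → t (φ u H ::ₘ s) ≤ C * t (H ::ₘ s) := by
      intro s hs
      have h1 := rkt1 hpos hex H (φ u H) s 0 (by rw [card_zero]; omega)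
      have hs' : s.card = n - 1 := by omega
      rw [hs', add_zero, add_zero, add_zero, show n - 1 + 1 = n by omega] at h1
      rw [hC, div_mul_eq_mul_div, le_div_iff₀ hH, mul_assoc]
      exact h1
    obtain ⟨a', ha'⟩ := exists_nat_ge ((a + 1) * C)
    refine ⟨a', fun q s hs => ?_⟩
    rw [one_mul, hD a' s hs]
    obtain ⟨s', hs'⟩ : ∃ s', s' = s.map (φ (-u)) := ⟨_, rfl⟩
    have e1 : s = s'.map (φ u) := by
      rw [hs', Multiset.map_map, hneg, Multiset.map_id]
    have hc' : s'.card + 1 = n := by rw [hs', card_map]; exact hs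
    have h2 : t (φ u (RSys.D mul H H a) ::ₘ s) = (a + 1) * t (φ u H ::ₘ s) := by
      rw [e1, ← map_cons, ← map_cons, hinv _ _ (by rw [card_cons]; exact hc'),
        hinv _ _ (by rw [card_cons]; exact hc'), hD a s' hc']
    rw [h2]
    calc ((a : ℝ) + 1) * t (φ u H ::ₘ s) ≤ (a + 1) * (C * t (H ::ₘ s)) :=
          mul_le_mul_of_nonneg_left (hdom s hs) (by positivity)
      _ = ((a + 1) * C) * t (H ::ₘ s) := by ring
      _ ≤ (a' + 1) * t (H ::ₘ s) :=
        mul_le_mul_of_nonneg_right (by linarith) (hHs s hs).le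
  · intro a
    filter_upwards [eventually_ge_atTop a] with q hq s hs
    rw [hD a s hs, one_mul]
    have h1 : (a : ℝ) ≤ q := by exact_mod_cast hq
    exact mul_le_mul_of_nonneg_right (by linarith) (hHs s hs).le
  · refine ⟨0, Eventually.of_forall fun q => ?_⟩
    rw [pow_zero, mul_one, replicate_zero, zero_add, Nat.sub_zero]
  · intro _ a δ hδ
    obtain ⟨q0, hq0⟩ := exists_nat_ge ((a + 1) * t (replicate n H) / δ)
    filter_upwards [eventually_ge_atTop q0] with q hq
    rw [zero_add, replicate_one, singleton_add, hD a _ (by rw [card_replicate]; omega),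
      ← replicate_succ, show n - 1 + 1 = n by omega, pow_one]
    rw [div_le_iff₀ hδ] at hq0
    have h1 : (q0 : ℝ) ≤ q := by exact_mod_cast hq
    nlinarith

end Pool.Agent.N110.RK
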