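import Pool.Agent.N110.RK.Geo
import Pool.Agent.N110.RK.Triv
import Pool.Agent.N110.RK.Stat
import Pool.Agent.N136.RK.Eig
import Pool.Agent.N478.RK.A
import Pool.Agent.N769.RK.B
import Pool.Agent.N769.RK.GE
import Pool.Agent.N769.RK.J

/-!
**The rank theorem**: abelian groups of birational self-maps which preserve `K_X + Δ`, and the
numerical dimension of `K_X + Δ`. The parts are by helper136 (`Eig`), helper478 (`A`) and
helper769 (`B`, `GE`, `J`).
-/

set_option autoImplicit false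
set_option linter.overlappingInstances false
set_option linter.unusedSectionVars false

open FF Module MvPolynomial Pool.Agent.W602.GT Pool.Agent.W603.LV
open Pool.Agent.Y172 Pool.Agent.Y191 Pool.Agent.R887
open scoped ENNReal

namespace Pool.Agent.N110.RK

theorem stmC : StmC := leafC (Pool.Agent.N478.RK.leafA Pool.Agent.N136.RK.eig)
  Pool.Agent.N769.RK.leafB

theorem stmJ : StmJ := Pool.Agent.N769.RK.leafJ Pool.Agent.N769.RK.leafGE

section

variable {K : Type} [Field K] [Algebra ℂ K] {N n : ℕ} {y : Fin (N + 1) → K}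

/-- the exact numerical dimension -/
theorem exists_nu {Δ : Place ℂ K → ℚ} {ν : ℕ} (hν : ν ≤ n) (hnum : ¬ NumDimLt y n Δ ν) :
    ∃ ν', ν ≤ ν' ∧ ν' ≤ n ∧ ¬ NumDimLt y n Δ ν' ∧ (ν' + 1 ≤ n → NumDimLt y n Δ (ν' + 1)) := by
  classical
  obtain ⟨ν', hν'⟩ : ∃ ν', ν' = Nat.findGreatest (fun k => ¬ NumDimLt y n Δ k) n := ⟨_, rfl⟩
  have e1 : ν ≤ ν' := by rw [hν']; exact Nat.le_findGreatest hν hnum
  have e2 : ν' ≤ n := by rw [hν']; exact Nat.findGreatest_le n
  have e3 : ¬ NumDimLt y n Δ ν' := by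
    rw [hν']
    exact Nat.findGreatest_spec (P := fun k => ¬ NumDimLt y n Δ k) hν hnum
  refine ⟨ν', e1, e2, e3, fun h => ?_⟩
  have := Nat.findGreatest_is_greatest (P := fun k => ¬ NumDimLt y n Δ k) (n := n)
    (k := ν' + 1) (by rw [← hν']; omega) h
  exact not_not.1 this

/-- **The rank theorem**, without hypothesis on the growth. -/
theorem rank_space (hy : NormalModel y) (hn : Algebra.trdeg ℂ K = n) (hn0 : 0 < n)
    {Δ : Place ℂ K → ℚ} (hΔ : {P | IsPrimeDivisor y P ∧ Δ P ≠ 0}.Finite) {r : ℕ}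
    {φ : (Fin r → ℤ) → (K ≃ₐ[ℂ] K)} (hφ : ∀ u v, φ (u + v) = φ u * φ v)
    (hP : ∀ v, PullLe (φ v) y n Δ) {ν : ℕ} (hν : ν ≤ n) (hnum : ¬ NumDimLt y n Δ ν) :
    ∃ W : Submodule ℝ (Fin r → ℝ), (r + ν + 1 ≤ finrank ℝ W + n ∨ W = ⊤) ∧
      ∀ w ∈ W, Subexp φ y n w := by
  obtain ⟨i, hi⟩ := hy.ne
  obtain ⟨ν', e1, e2, e3, e4⟩ := exists_nu hν hnum
  obtain ⟨m, M, c, ε, h⟩ := exists_rsys hy hn hn0 hi hΔ hφ hP e2 e3 e4
  obtain ⟨W, hW1, hW2, hW⟩ := rank_dir stmJ stmC h
  refine ⟨W, ?_, fun w hw ε hε => ?_⟩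
  · rcases Nat.lt_or_ge ν' n with h1 | h1
    · have := hW1 h1
      left
      omega
    · right
      exact hW2 (le_antisymm e2 h1)
  · obtain ⟨B, hB⟩ := hW w hw ε hε
    refine ⟨B, fun l v hv => ?_⟩
    have h1 := hB l v hv
    rw [mixedDegree_eq hy hn hi (φ v) (by omega : 1 ≤ n), Multiset.replicate_one,
      Multiset.singleton_add, ← ENNReal.ofReal_natCast]
    exact ENNReal.ofReal_le_ofReal h1

/-- the rank theorem for the numerical dimension zero -/
theorem rank_space_zero (hy : NormalModel y) (hn : Algebra.trdeg ℂ K = n) (hn0 : 0 < n)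
    {r : ℕ} {φ : (Fin r → ℤ) → (K ≃ₐ[ℂ] K)} (hφ : ∀ u v, φ (u + v) = φ u * φ v) :
    ∃ W : Submodule ℝ (Fin r → ℝ), r + 1 ≤ finrank ℝ W + n ∧ ∀ w ∈ W, Subexp φ y n w := by
  classical
  obtain ⟨i, hi⟩ := hy.ne
  have cx := ctx hy hn hi
  have h0 : φ 0 = 1 := by
    have h1 := hφ 0 0
    rw [add_zero] at h1
    exact (mul_eq_left.1 h1.symm)
  have h := triv_rsys (n := n) (r := r) (t := fun s : Multiset (Cls ℂ (affS y i)) => (I s : ℝ))
    (φ := fun v => mapCls hy hi (φ v)) (mul := mulCls (fin_affS i) (one_affS hi))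
    (H := hcls hy hi) (fun s hs => by exact_mod_cast I_pos cx hs) (exch cx) hn0
    (by
      funext A
      beta_reduce
      rw [h0, mapCls_one]
      rfl)
    (by
      intro u v
      funext A
      change _ = mapCls hy hi (φ u) (mapCls hy hi (φ v) A)
      rw [mapCls_mapCls, hφ])
    (by
      intro u s hs
      exact_mod_cast I_map hy hn hi (φ u) hs)
    (by
      intro a b s hs
      have h1 := I_add cx (D := mulCls (fin_affS i) (one_affS hi) a b) (V := a) (V' := b)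
        le_rfl hs
      have h2 := I_mul_ge cx (D := mulCls (fin_affS i) (one_affS hi) a b) (V := a) (V' := b)
        le_rfl hs
      exact_mod_cast le_antisymm h1 h2)
  obtain ⟨W, hW1, -, hW⟩ := rank_dir stmJ stmC h
  refine ⟨W, hW1 hn0, fun w hw ε hε => ?_⟩
  obtain ⟨B, hB⟩ := hW w hw ε hε
  refine ⟨B, fun l v hv => ?_⟩
  have h1 := hB l v hv
  rw [mixedDegree_eq hy hn hi (φ v) (by omega : 1 ≤ n), Multiset.replicate_one,
    Multiset.singleton_add, ← ENNReal.ofReal_natCast]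
  exact ENNReal.ofReal_le_ofReal h1

/-- exponential growth in all directions: the growth rank is `r` -/
theorem growthRank_of_exp {r : ℕ} {φ : (Fin r → ℤ) → (K ≃ₐ[ℂ] K)} (h : ExpGrowth φ y n) :
    GrowthRankGe φ y n r := by
  intro W hW
  obtain ⟨c, δ, hc, hδ, hg⟩ := h
  have hbot : W = ⊥ := by
    by_contra hW3
    obtain ⟨w, hw, hw0⟩ := Submodule.exists_mem_ne_zero_of_ne_bot hW3
    refine no_zero_dir (f := fun v => c * Real.exp (δ * ∑ i, |(v i : ℝ)|)) hc hδ
      (fun v => le_rfl) hw0 fun ε hε => ?_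
    obtain ⟨B, hB⟩ := hW w hw ε hε
    refine ⟨B, fun l u hu => ?_⟩
    have h1 := (hg u).trans (hB l u hu)
    have h2 : 0 < c * Real.exp (δ * ∑ i, |(u i : ℝ)|) := by positivity
    by_contra hcon
    rw [ENNReal.ofReal_le_ofReal_iff'] at h1
    rcases h1 with h1 | h1
    · exact hcon h1
    · linarith
  rw [hbot, finrank_bot, zero_add]

/-- **The rank theorem.** -/
theorem rank_main (hy : NormalModel y) (hn : Algebra.trdeg ℂ K = n) (hn0 : 0 < n)
    {Δ : Place ℂ K → ℚ} (hΔ : {P | IsPrimeDivisor y P ∧ Δ P ≠ 0}.Finite) {r s : ℕ} (hs : 0 < s)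
    {φ : (Fin r → ℤ) → (K ≃ₐ[ℂ] K)} (hφ : ∀ u v, φ (u + v) = φ u * φ v)
    (hP : ∀ v, PullLe (φ v) y n Δ) (hrank : GrowthRankGe φ y n s) :
    s < n ∧ NumDimLt y n Δ (n - s) := by
  have hsn : s < n := by
    obtain ⟨W, hW1, hW⟩ := rank_space_zero hy hn hn0 hφ
    have := hrank W hW
    omega
  refine ⟨hsn, ?_⟩
  by_contra hnum
  obtain ⟨W, hW1, hW⟩ := rank_space hy hn hn0 hΔ hφ hP (Nat.sub_le n s) hnum
  have h2 := hrank W hW
  rcases hW1 with h1 | rfl
  · omega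
  · rw [finrank_top, finrank_fin_fun] at h2
    omega

end

end Pool.Agent.N110.RK
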