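import Pool.Agent.N110.RK.Stm

/-!
The space of directions with zero growth.
-/

set_option autoImplicit false

open Multiset Filter Topology Module

namespace Pool.Agent.N110.RK

/-- the linear form of a character -/
noncomputable def lin {r : ℕ} (ψ : Fin r → ℝ) : (Fin r → ℝ) →ₗ[ℝ] ℝ :=
  ∑ i, ψ i • LinearMap.proj i

theorem lin_apply {r : ℕ} (ψ w : Fin r → ℝ) : lin ψ w = ∑ i, ψ i * w i := by
  unfold lin
  rw [LinearMap.sum_apply]
  rfl

theorem finrank_ker {r : ℕ} (ψ : Fin r → ℝ) : r ≤ finrank ℝ (LinearMap.ker (lin ψ)) + 1 := by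
  have h1 := LinearMap.finrank_range_add_finrank_ker (lin ψ)
  have h2 : finrank ℝ (LinearMap.range (lin ψ)) ≤ 1 := by
    have := Submodule.finrank_le (LinearMap.range (lin ψ))
    rwa [finrank_self] at this
  rw [finrank_fin_fun] at h1
  omega

theorem fl_bound {r : ℕ} (ψ w : Fin r → ℝ) (hw : ∑ i, ψ i * w i = 0) (l : ℕ) :
    ∑ i, ψ i * (fl w l i : ℝ) ≤ ∑ i, |ψ i| := by
  have h1 : ∑ i, ψ i * (fl w l i : ℝ) = ∑ i, ψ i * ((fl w l i : ℝ) - l * w i) := by
    have h2 : ∑ i, ψ i * ((l : ℝ) * w i) = 0 := by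
      have : ∑ i, ψ i * ((l : ℝ) * w i) = l * ∑ i, ψ i * w i := by
        rw [Finset.mul_sum]
        exact Finset.sum_congr rfl fun i _ => by ring
      rw [this, hw, mul_zero]
    simp only [mul_sub, Finset.sum_sub_distrib]
    rw [h2, sub_zero]
  rw [h1]
  refine Finset.sum_le_sum fun i _ => ?_
  have h3 : |(fl w l i : ℝ) - l * w i| ≤ 1 := by
    unfold fl
    have h4 := Int.floor_le ((l : ℝ) * w i)
    have h5 := Int.lt_floor_add_one ((l : ℝ) * w i)
    rw [abs_le]
    constructor <;> linarith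
  calc ψ i * ((fl w l i : ℝ) - l * w i) ≤ |ψ i * ((fl w l i : ℝ) - l * w i)| := le_abs_self _
    _ = |ψ i| * |(fl w l i : ℝ) - l * w i| := abs_mul _ _
    _ ≤ |ψ i| * 1 := mul_le_mul_of_nonneg_left h3 (abs_nonneg _)
    _ = |ψ i| := mul_one _

theorem leafC (hA : StmA) (hB : StmB) : StmC := by
  intro r C hC k
  induction k with
  | zero =>
    intro J ψ hJ
    have hZG : ∀ w : Fin r → ℝ, ∑ i, ψ i * w i = 0 → ZG 1 J w := by
      intro w hw ε hε
      refine ⟨Real.exp (∑ i, |ψ i|), fun l => ?_⟩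
      have h1 : dg 1 J (fl w l) = Real.exp (∑ i, ψ i * (fl w l i : ℝ)) := by
        unfold dg
        have h2 := hJ.inv (fl w l) (replicate 1 0)
        rw [hJ.norm, mul_one] at h2
        rw [← h2]
        congr 1
        simp
      rw [h1]
      have h3 : (1 : ℝ) ≤ Real.exp (ε * l) := Real.one_le_exp (by positivity)
      calc Real.exp (∑ i, ψ i * (fl w l i : ℝ)) ≤ Real.exp (∑ i, |ψ i|) :=
            Real.exp_le_exp.2 (fl_bound ψ w hw l)
        _ = Real.exp (∑ i, |ψ i|) * 1 := (mul_one _).symm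
        _ ≤ _ := mul_le_mul_of_nonneg_left h3 (Real.exp_pos _).le
    by_cases h0 : ∀ i, ψ i = 0
    · refine ⟨⊤, ?_, fun _ => ?_, fun w _ => hZG w ?_⟩
      · rw [finrank_top, finrank_fin_fun]
        omega
      · rw [finrank_top, finrank_fin_fun]
        omega
      · exact Finset.sum_eq_zero fun i _ => by rw [h0 i, zero_mul]
    · refine ⟨LinearMap.ker (lin ψ), finrank_ker ψ, fun h => absurd h h0, fun w hw => hZG w ?_⟩
      rw [← lin_apply]
      exact hw
  | succ k ih =>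
    intro J ψ hJ
    obtain ⟨L, hL, ψ', hL'⟩ := hA r C hC (k + 1) J ψ hJ
    obtain ⟨W', h1, -, h3⟩ := ih L ψ' hL'
    have hZG : ∀ w ∈ W', ∑ i, ψ i * w i = 0 → ZG (k + 2) J w := fun w hw h0 =>
      hB r C hC k J ψ hJ L ψ' hL hL' w h0 (h3 w hw) (h3 (-w) (W'.neg_mem hw))
    by_cases h0 : ∀ i, ψ i = 0
    · refine ⟨W', by omega, fun _ => h1, fun w hw => hZG w hw ?_⟩
      exact Finset.sum_eq_zero fun i _ => by rw [h0 i, zero_mul]
    · refine ⟨W' ⊓ LinearMap.ker (lin ψ), ?_, fun h => absurd h h0, fun w hw => hZG w hw.1 ?_⟩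
      · have h4 := Submodule.finrank_sup_add_finrank_inf_eq W' (LinearMap.ker (lin ψ))
        have h5 := finrank_ker ψ
        have h6 : finrank ℝ ↥(W' ⊔ LinearMap.ker (lin ψ)) ≤ r := by
          have := Submodule.finrank_le (W' ⊔ LinearMap.ker (lin ψ))
          rwa [finrank_fin_fun] at this
        omega
      · rw [← lin_apply]
        exact hw.2

end Pool.Agent.N110.RK
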