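import Pool.Agent.N110.RK.SysF
import Pool.Agent.N110.RK.C

/-!
The rank theorem for intersection numbers with an action of a lattice.
-/

set_option autoImplicit false

open Multiset Filter Topology Module

namespace Pool.Agent.N110.RK

section

variable {α 𝒜 : Type} [Preorder 𝒜] {n r : ℕ} {t : Multiset α → ℝ} {φ : Lat r → α → α}
  {mul : α → α → α} {H : α} {m : ℕ → ℝ} {M : 𝒜 → ℕ → α} {ν : ℕ} {c ε : ℝ}

namespace RSys

theorem φ_neg (h : RSys n r t φ mul H m M ν c ε) (u : Lat r) (a : α) : φ u (φ (-u) a) = a := by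
  have h1 := h.φ_add u (-u)
  rw [add_neg_cancel, h.φ_zero] at h1
  exact (congrFun h1 a).symm

theorem le_map (h : RSys n r t φ mul H m M ν c ε) {c' : ℝ} {a b : α} (hab : Le n t c' a b)
    (u : Lat r) : Le n t c' (φ u a) (φ u b) := by
  intro s hs
  obtain ⟨s', hs'⟩ : ∃ s', s' = s.map (φ (-u)) := ⟨_, rfl⟩
  have e1 : s = s'.map (φ u) := by
    rw [hs', Multiset.map_map]
    have e2 : φ u ∘ φ (-u) = id := by
      funext x
      exact h.φ_neg u x
    rw [e2, Multiset.map_id]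
  have hc' : s'.card + 1 = n := by rw [hs', card_map]; exact hs
  rw [e1, ← map_cons, ← map_cons, h.inv _ _ (by rw [card_cons]; exact hc'),
    h.inv _ _ (by rw [card_cons]; exact hc')]
  exact hab s' hc'

/-- the product of `a` and the `v`-th power of `H` -/
def D (mul : α → α → α) (H : α) (a : α) : ℕ → α
  | 0 => a
  | v + 1 => mul H (D mul H a v)

theorem t_D (h : RSys n r t φ mul H m M ν c ε) (a : α) (v : ℕ) (s : Multiset α)
    (hs : s.card + 1 = n) : t (D mul H a v ::ₘ s) = t (a ::ₘ s) + v * t (H ::ₘ s) := by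
  induction v with
  | zero => simp [D]
  | succ v ih =>
    rw [D, h.mul_t _ _ _ hs, ih]
    push_cast
    ring

theorem t_D' (h : RSys n r t φ mul H m M ν c ε) (a : α) (v : ℕ) (u : Lat r) (s : Multiset α)
    (hs : s.card + 1 = n) :
    t (φ u (D mul H a v) ::ₘ s) = t (φ u a ::ₘ s) + v * t (φ u H ::ₘ s) := by
  obtain ⟨s', hs'⟩ : ∃ s', s' = s.map (φ (-u)) := ⟨_, rfl⟩
  have e1 : s = s'.map (φ u) := by
    rw [hs', Multiset.map_map]
    have e2 : φ u ∘ φ (-u) = id := by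
      funext x
      exact h.φ_neg u x
    rw [e2, Multiset.map_id]
  have hc' : s'.card + 1 = n := by rw [hs', card_map]; exact hs
  rw [e1, ← map_cons, ← map_cons, ← map_cons, h.inv _ _ (by rw [card_cons]; exact hc'),
    h.inv _ _ (by rw [card_cons]; exact hc'), h.inv _ _ (by rw [card_cons]; exact hc')]
  exact h.t_D a v s' hc'

end RSys

/-- the lattice points near the point `l w` -/
def Tl (w : Fin r → ℝ) (l : ℕ) : Set (Lat r) := {u | ∀ i, |(u i : ℝ) - l * w i| < 1}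

theorem Tl_zero (w : Fin r → ℝ) : (0 : Lat r) ∈ Tl w 0 := by
  intro i
  simp

theorem eq_zero_of_Tl (w : Fin r → ℝ) {u : Lat r} (hu : u ∈ Tl w 0) : u = 0 := by
  funext i
  have h1 := hu i
  rw [Nat.cast_zero, zero_mul, sub_zero] at h1
  have h2 : |u i| < 1 := by exact_mod_cast h1
  exact Int.abs_lt_one_iff.1 h2

theorem Tl_split (w : Fin r → ℝ) (l k : ℕ) {u : Lat r} (hu : u ∈ Tl w (l + k)) :
    ∃ a ∈ Tl w l, ∃ b ∈ Tl w k, u = a + b := by
  have key : ∀ i, ∃ a : ℤ, |(a : ℝ) - l * w i| < 1 ∧ |((u i - a : ℤ) : ℝ) - k * w i| < 1 := by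
    intro i
    have h1 := hu i
    rw [abs_lt] at h1
    push_cast at h1
    obtain ⟨x, hx⟩ : ∃ x : ℝ, x = l * w i := ⟨_, rfl⟩
    obtain ⟨z, hz⟩ : ∃ z : ℝ, z = k * w i := ⟨_, rfl⟩
    rw [← hx, ← hz]
    rw [add_mul, ← hx, ← hz] at h1
    rcases le_total ((u i : ℝ) - (x + z)) 0 with h2 | h2
    · refine ⟨⌊x⌋, ?_, ?_⟩
      · have h3 := Int.floor_le x
        have h4 := Int.lt_floor_add_one x
        rw [abs_lt]
        constructor <;> linarith
      · have h3 := Int.floor_le x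
        have h4 := Int.lt_floor_add_one x
        push_cast
        rw [abs_lt]
        constructor <;> linarith [h1.1, h1.2]
    · refine ⟨⌈x⌉, ?_, ?_⟩
      · have h3 := Int.le_ceil x
        have h4 := Int.ceil_lt_add_one x
        rw [abs_lt]
        constructor <;> linarith
      · have h3 := Int.le_ceil x
        have h4 := Int.ceil_lt_add_one x
        push_cast
        rw [abs_lt]
        constructor <;> linarith [h1.1, h1.2]
  choose a ha hb using key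
  refine ⟨a, ha, fun i => u i - a i, hb, ?_⟩
  funext i
  change u i = a i + (u i - a i)
  ring

theorem Tl_fin (w : Fin r → ℝ) (l : ℕ) : (Tl w l).Finite := by
  classical
  refine (Set.finite_Icc (fun i => ⌊(l : ℝ) * w i⌋ - 1 : Lat r)
    (fun i => ⌊(l : ℝ) * w i⌋ + 2 : Lat r)).subset ?_
  intro u hu
  have key : ∀ i, ⌊(l : ℝ) * w i⌋ - 1 ≤ u i ∧ u i ≤ ⌊(l : ℝ) * w i⌋ + 2 := by
    intro i
    have h1 := hu i
    rw [abs_lt] at h1
    have h3 := Int.floor_le ((l : ℝ) * w i)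
    have h4 := Int.lt_floor_add_one ((l : ℝ) * w i)
    have h5 : (⌊(l : ℝ) * w i⌋ : ℝ) - 1 < u i := by linarith
    have h6 : (u i : ℝ) < ⌊(l : ℝ) * w i⌋ + 2 := by linarith
    have h7 : ⌊(l : ℝ) * w i⌋ - 1 < u i := by exact_mod_cast h5
    have h8 : u i < ⌊(l : ℝ) * w i⌋ + 2 := by exact_mod_cast h6
    omega
  exact ⟨fun i => (key i).1, fun i => (key i).2⟩

theorem Tl_fl (w : Fin r → ℝ) (l : ℕ) : fl w l ∈ Tl w l := by
  intro i
  unfold fl
  have h3 := Int.floor_le ((l : ℝ) * w i)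
  have h4 := Int.lt_floor_add_one ((l : ℝ) * w i)
  rw [abs_lt]
  constructor <;> linarith

/-- the difference to the standard lattice point -/
theorem Tl_sub (w : Fin r → ℝ) (l : ℕ) {u : Lat r} (hu : u ∈ Tl w l) :
    u - fl w l ∈ Set.Icc (0 : Lat r) 1 := by
  have key : ∀ i, 0 ≤ u i - ⌊(l : ℝ) * w i⌋ ∧ u i - ⌊(l : ℝ) * w i⌋ ≤ 1 := by
    intro i
    have h1 := hu i
    rw [abs_lt] at h1
    have h3 := Int.floor_le ((l : ℝ) * w i)
    have h4 := Int.lt_floor_add_one ((l : ℝ) * w i)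
    have h5 : (⌊(l : ℝ) * w i⌋ : ℝ) - 1 < u i := by linarith
    have h6 : (u i : ℝ) < ⌊(l : ℝ) * w i⌋ + 2 := by linarith
    have h7 : ⌊(l : ℝ) * w i⌋ - 1 < u i := by exact_mod_cast h5
    have h8 : u i < ⌊(l : ℝ) * w i⌋ + 2 := by exact_mod_cast h6
    omega
  exact ⟨fun i => (key i).1, fun i => (key i).2⟩

/-- the maps near the point `l w` -/
def Wl (φ : Lat r → α → α) (w : Fin r → ℝ) (l : ℕ) : Set (α → α) := {F | ∃ u ∈ Tl w l, F = φ u}

namespace RSys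

theorem leW (h : RSys n r t φ mul H m M ν c ε) (w : Fin r → ℝ) {c' : ℝ} {a b : α}
    (hab : Le n t c' a b) : LeW n t (Wl φ w) c' a b := by
  rintro l F ⟨u, -, rfl⟩
  exact h.le_map hab u

theorem sysF [IsDirected 𝒜 (· ≤ ·)] (h : RSys n r t φ mul H m M ν c ε) (w : Fin r → ℝ)
    {𝓕 : Filter ℕ} (h𝓕 : 𝓕 ≤ atTop) :
    ∃ C₁, SysF 𝓕 n t (Wl φ w) H m M (D mul H) ν c ε C₁ := by
  obtain ⟨C₁, hC₁⟩ := ((Tl_fin w 1).image fun u => t (φ u H ::ₘ replicate (n - 1) H)).bddAbove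
  refine ⟨C₁, h.pos, h.ex, h.hn, h.hν, h.hc, h.hε, ⟨0, Tl_zero w, h.φ_zero.symm⟩, ?_, ?_, ?_, ?_,
    h.m_pos, h.m_tend.mono_left h𝓕, ?_, ?_, ?_, ?_, ?_, ?_, ?_, ?_⟩
  · rintro F ⟨u, hu, rfl⟩
    rw [eq_zero_of_Tl w hu, h.φ_zero]
  · rintro l k F ⟨u, hu, rfl⟩
    obtain ⟨a, ha, b, hb, rfl⟩ := Tl_split w l k hu
    exact ⟨φ a, ⟨a, ha, rfl⟩, φ b, ⟨b, hb, rfl⟩, h.φ_add a b⟩
  · rintro l F ⟨u, hu, rfl⟩
    exact ⟨1, one_pos, fun s hs => by rw [one_mul, h.inv u s hs]⟩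
  · rintro F ⟨u, hu, rfl⟩
    exact hC₁ ⟨u, hu, rfl⟩
  · intro a a'
    obtain ⟨a'', h1, h2⟩ := directed_of (· ≤ ·) a a'
    exact ⟨a'', fun q => ⟨h.leW w (h.mono _ _ h1 q), h.leW w (h.mono _ _ h2 q)⟩⟩
  · rintro k G ⟨u, hu, rfl⟩ a
    obtain ⟨a', ha'⟩ := h.M_f u a
    exact ⟨a', fun q => h.leW w (ha' q)⟩
  · intro a
    filter_upwards [(h.M_le a).filter_mono h𝓕] with q hq
    exact h.leW w hq
  · rintro a v - l F ⟨u, hu, rfl⟩ s hs
    exact (h.t_D' a v u s hs).le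
  · intro a v _ s hs
    rw [h.t_D a v s hs, one_mul]
    have : 0 ≤ t (H ::ₘ s) := (h.pos _ (by rw [card_cons]; exact hs)).le
    have h1 : (0 : ℝ) ≤ v := Nat.cast_nonneg v
    have := mul_nonneg h1 this
    linarith
  · intro a v _ s hs
    rw [h.t_D a v s hs]
    have : 0 ≤ t (a ::ₘ s) := (h.pos _ (by rw [card_cons]; exact hs)).le
    linarith
  · rintro l F ⟨u, hu, rfl⟩
    obtain ⟨a, ha⟩ := h.eps
    obtain ⟨a', ha'⟩ := h.M_f (-u) a
    refine ⟨a', ?_⟩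
    filter_upwards [ha.filter_mono h𝓕] with q hq
    refine hq.trans ?_
    have h1 := h.le_map (ha' q) u
    rw [h.φ_neg] at h1
    have h2 := h1.rep zero_le_one ν (replicate (n - ν) H)
      (by rw [card_replicate]; have := h.hν; omega)
    rwa [one_pow, one_mul] at h2
  · intro hν a δ hδ
    exact (h.zero hν a δ hδ).filter_mono h𝓕

end RSys

end

/-- all products have zero growth -/
theorem bound_of_ZG {r : ℕ} {C : Lat r → ℝ} (hC : ∀ v, 1 ≤ C v) {k : ℕ}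
    {J : Multiset (Lat r) → ℝ} {ψ : Fin r → ℝ} (h : Fm C (k + 1) J ψ) {w : Fin r → ℝ}
    (hZ : ZG (k + 1) J w) {ε : ℝ} (hε : 0 < ε) : ∃ B : ℝ, ∀ l : ℕ, ∀ u ∈ Tl w l, ∀ p ≤ k + 1,
      J (replicate p u + replicate (k + 1 - p) 0) ≤ B * Real.exp (ε * l) := by
  classical
  obtain ⟨K₀, hK₀⟩ := ((Set.finite_Icc (0 : Lat r) 1).image C).bddAbove
  have hK : ∀ l : ℕ, ∀ u ∈ Tl w l, C (u - fl w l) ≤ K₀ := fun l u hu =>
    hK₀ ⟨_, Tl_sub w l hu, rfl⟩
  have hK1 : 1 ≤ K₀ := (hC 0).trans (hK₀ ⟨0, ⟨le_rfl, fun i => by simp⟩, rfl⟩)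
  have hk : (0 : ℝ) < ((k : ℝ) + 1) := by positivity
  obtain ⟨B0, hB0⟩ := hZ (ε / (k + 1)) (by positivity)
  obtain ⟨B, hB⟩ : ∃ B, B = max B0 1 := ⟨_, rfl⟩
  have hB1 : 1 ≤ B := by rw [hB]; exact le_max_right _ _
  have hBB : B0 ≤ B := by rw [hB]; exact le_max_left _ _
  refine ⟨(4 ^ k * (K₀ * B)) ^ (k + 1), fun l u hu p hp => ?_⟩
  obtain ⟨d, hd⟩ : ∃ d, d = J (u ::ₘ replicate k 0) := ⟨_, rfl⟩
  have hd0 : 0 ≤ d := by rw [hd]; exact h.nonneg _
  have hd1 : d ≤ K₀ * B * Real.exp (ε / (k + 1) * l) := by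
    have h1 := h.dom u (fl w l) (replicate k 0)
    have h2 := hB0 l
    unfold dg at h2
    rw [Nat.add_sub_cancel] at h2
    rw [hd]
    calc J (u ::ₘ replicate k 0) ≤ C (u - fl w l) * J (fl w l ::ₘ replicate k 0) := h1
      _ ≤ K₀ * J (fl w l ::ₘ replicate k 0) :=
        mul_le_mul_of_nonneg_right (hK l u hu) (h.nonneg _)
      _ ≤ K₀ * (B0 * Real.exp (ε / (k + 1) * l)) :=
        mul_le_mul_of_nonneg_left h2 (by linarith)
      _ ≤ K₀ * (B * Real.exp (ε / (k + 1) * l)) := by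
        refine mul_le_mul_of_nonneg_left ?_ (by linarith)
        exact mul_le_mul_of_nonneg_right hBB (Real.exp_pos _).le
      _ = _ := by ring
  have hLe : Le (k + 1) J (4 ^ k * d) u 0 := by
    intro s hs
    have h1 := rkt1 (h.pos hC) h.exch 0 u s 0 (by rw [card_zero]; omega)
    have hs' : s.card = k := by omega
    rw [hs', add_zero, add_zero, add_zero, h.norm, mul_one, ← hd] at h1
    linarith
  have h2 := hLe.rep (by positivity) p (replicate (k + 1 - p) 0)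
    (by rw [card_replicate]; omega)
  have e1 : replicate p (0 : Lat r) + replicate (k + 1 - p) 0 = replicate (k + 1) 0 := by
    rw [← replicate_add]
    congr 1
    omega
  rw [e1, h.norm, mul_one] at h2
  have hexp : (1 : ℝ) ≤ Real.exp (ε / (k + 1) * l) := Real.one_le_exp (by positivity)
  have h4k : (1 : ℝ) ≤ 4 ^ k := one_le_pow₀ (by norm_num)
  have h3 : 4 ^ k * d ≤ 4 ^ k * (K₀ * B) * Real.exp (ε / (k + 1) * l) := by
    rw [mul_assoc]
    exact mul_le_mul_of_nonneg_left hd1 (by positivity)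
  have h4 : (1 : ℝ) ≤ 4 ^ k * (K₀ * B) * Real.exp (ε / (k + 1) * l) := by
    have h5 : (1 : ℝ) ≤ K₀ * B := by nlinarith
    have h6 : (1 : ℝ) ≤ 4 ^ k * (K₀ * B) := by nlinarith
    nlinarith
  calc J (replicate p u + replicate (k + 1 - p) 0) ≤ (4 ^ k * d) ^ p := h2
    _ ≤ (4 ^ k * (K₀ * B) * Real.exp (ε / (k + 1) * l)) ^ p :=
      pow_le_pow_left₀ (by positivity) h3 p
    _ ≤ (4 ^ k * (K₀ * B) * Real.exp (ε / (k + 1) * l)) ^ (k + 1) :=
      pow_le_pow_right₀ h4 hp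
    _ = (4 ^ k * (K₀ * B)) ^ (k + 1) * Real.exp (ε * l) := by
      rw [mul_pow, ← Real.exp_nat_mul]
      congr 2
      push_cast
      field_simp

section

variable {α 𝒜 : Type} [Preorder 𝒜] {n r : ℕ} {t : Multiset α → ℝ} {φ : Lat r → α → α}
  {mul : α → α → α} {H : α} {m : ℕ → ℝ} {M : 𝒜 → ℕ → α} {ν : ℕ} {c ε : ℝ}

/-- a space of directions with zero growth -/
theorem rank_dir (hJ : StmJ) (hCC : StmC) [IsDirected 𝒜 (· ≤ ·)] [Nonempty 𝒜]
    (h : RSys n r t φ mul H m M ν c ε) :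
    ∃ W : Submodule ℝ (Fin r → ℝ), (ν < n → r + ν + 1 ≤ finrank ℝ W + n) ∧ (ν = n → W = ⊤) ∧
      ∀ w ∈ W, ∀ ε : ℝ, 0 < ε → ∃ B : ℝ, ∀ l : ℕ, ∀ u ∈ Tl w l,
        t (φ u H ::ₘ replicate (n - 1) H) ≤ B * Real.exp (ε * l) := by
  classical
  have hn := h.hn
  have hν := h.hν
  obtain ⟨𝒰, h𝒰⟩ : ∃ 𝒰 : Ultrafilter ℕ, (𝒰 : Filter ℕ) ≤ atTop :=
    ⟨Ultrafilter.of atTop, Ultrafilter.of_le atTop⟩
  obtain ⟨C, hC1, J, κ, hκ, hF, hlim⟩ := hJ α 𝒜 n r t φ mul H m M ν c ε h 𝒰 h𝒰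
  -- the directions with zero growth
  have hdir : ∃ W : Submodule ℝ (Fin r → ℝ), (ν < n → r + ν + 1 ≤ finrank ℝ W + n) ∧
      (ν = n → W = ⊤) ∧ ∀ w ∈ W, ∀ ε : ℝ, 0 < ε → ∃ B : ℝ, ∀ l : ℕ, ∀ u ∈ Tl w l,
      ∀ p ≤ n - ν, J (replicate p u + replicate (n - ν - p) 0) ≤ B * Real.exp (ε * l) := by
    rcases Nat.eq_zero_or_pos (n - ν) with h0 | h0
    · refine ⟨⊤, fun h1 => by omega, fun _ => rfl, fun w _ ε hε => ⟨1, fun l u hu p hp => ?_⟩⟩
      have hp0 : p = 0 := by omega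
      have h1 := hF.norm
      rw [h0] at h1 ⊢
      rw [hp0, replicate_zero, zero_add, Nat.sub_zero, h1, one_mul]
      exact Real.one_le_exp (by positivity)
    · obtain ⟨k, hk⟩ : ∃ k, n - ν = k + 1 := ⟨n - ν - 1, by omega⟩
      rw [hk] at hF ⊢
      obtain ⟨W, -, hW, hZ⟩ := hCC r C hC1 k J 0 hF
      have hW1 := hW fun i => rfl
      exact ⟨W, fun _ => by omega, fun h1 => by omega,
        fun w hw ε hε => bound_of_ZG hC1 hF (hZ w hw) hε⟩
  obtain ⟨W, hW1, hW2, hW⟩ := hdir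
  refine ⟨W, hW1, hW2, fun w hw0 ε₁ hε₁ => ?_⟩
  have hw := hW w hw0
  -- the constants
  obtain ⟨e, he⟩ : ∃ e : ℝ, e = ε₁ / 2 := ⟨_, rfl⟩
  have he0 : 0 < e := by rw [he]; positivity
  obtain ⟨B, hB⟩ := hw e he0
  obtain ⟨C₁, hS⟩ := h.sysF w h𝒰
  have hL1 : (1 : ℝ) < Real.exp e := Real.one_lt_exp_iff.2 he0
  have hG : SysF.GwF (𝒰 : Filter ℕ) n t (Wl φ w) H m M ν ν (Real.exp e) := by
    refine ⟨κ * |B| + 1, by positivity, ?_⟩
    rintro l F ⟨u, hu, rfl⟩ i' p h1 h2 h3 a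
    obtain rfl : i' = ν := le_antisymm h2 h1
    obtain ⟨a', ha'⟩ := h.M_f u a
    filter_upwards [hlim a' (replicate p u + replicate (n - i' - p) 0)
      (by rw [card_add, card_replicate, card_replicate]; omega) 1 one_pos] with q hq
    have hm := pow_nonneg (h.m_pos q).le i'
    have h4 := (ha' q).rep zero_le_one i' (replicate p (φ u H) + replicate (n - i' - p) H)
      (by rw [card_add, card_replicate, card_replicate]; omega)
    rw [one_pow, one_mul] at h4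
    have e1 : (replicate p u + replicate (n - i' - p) (0 : Lat r)).map (fun v => φ v H) =
        replicate p (φ u H) + replicate (n - i' - p) H := by
      rw [Multiset.map_add, map_replicate, map_replicate, h.φ_zero]
      rfl
    rw [e1] at hq
    refine h4.trans (hq.trans (mul_le_mul_of_nonneg_right ?_ hm))
    have h5 := hB l u hu p (by omega)
    have e2 : Real.exp (e * l) = Real.exp e ^ l := by
      rw [← Real.exp_nat_mul, mul_comm]
    rw [e2] at h5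
    have h6 : (1 : ℝ) ≤ Real.exp e ^ l := one_le_pow₀ hL1.le
    have h7 : B * Real.exp e ^ l ≤ |B| * Real.exp e ^ l :=
      mul_le_mul_of_nonneg_right (le_abs_self B) (by positivity)
    calc κ * J (replicate p u + replicate (n - i' - p) 0) + 1 ≤
          κ * (|B| * Real.exp e ^ l) + Real.exp e ^ l :=
          add_le_add (mul_le_mul_of_nonneg_left (h5.trans h7) hκ.le) h6
      _ = (κ * |B| + 1) * Real.exp e ^ l := by ring
  have hL2 : Real.exp e < Real.exp (2 * e) := Real.exp_lt_exp.2 (by linarith)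
  obtain ⟨A, hA, hfin⟩ := hS.growth_all ν (Real.exp_pos e) hL2 le_rfl hG
  rw [Nat.sub_self] at hfin
  refine ⟨A, fun l u hu => ?_⟩
  obtain ⟨a⟩ := (inferInstance : Nonempty 𝒜)
  obtain ⟨q, hq⟩ := (hfin l (φ u) ⟨_, hu, rfl⟩ 0 1 le_rfl (by omega) (by omega) a).exists
  rw [replicate_zero, zero_add, pow_zero, mul_one, replicate_one, Nat.sub_zero,
    singleton_add] at hq
  have e2 : Real.exp (ε₁ * l) = Real.exp (2 * e) ^ l := by
    rw [← Real.exp_nat_mul, he]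
    congr 1
    ring
  rwa [e2]

/-- uniform growth excludes zero growth -/
theorem no_zero_dir {f : Lat r → ℝ} {c₀ δ : ℝ} (hc₀ : 0 < c₀) (hδ : 0 < δ)
    (hgrow : ∀ v : Lat r, c₀ * Real.exp (δ * ∑ i, |(v i : ℝ)|) ≤ f v) {w : Fin r → ℝ}
    (hw0 : w ≠ 0) (hw : ∀ ε : ℝ, 0 < ε → ∃ B : ℝ, ∀ l : ℕ, ∀ u ∈ Tl w l,
      f u ≤ B * Real.exp (ε * l)) : False := by
  obtain ⟨N, hN⟩ : ∃ N : ℝ, N = ∑ i, |w i| := ⟨_, rfl⟩
  have hN0 : 0 < N := by
    have h1 : ∃ i, w i ≠ 0 := by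
      by_contra hcon
      push Not at hcon
      exact hw0 (funext hcon)
    obtain ⟨i, hi⟩ := h1
    rw [hN]
    refine lt_of_lt_of_le (abs_pos.2 hi)
      (Finset.single_le_sum (f := fun i => |w i|) (fun j _ => abs_nonneg _) (Finset.mem_univ i))
  obtain ⟨e, he⟩ : ∃ e : ℝ, e = δ * N / 2 := ⟨_, rfl⟩
  have he0 : 0 < e := by rw [he]; positivity
  obtain ⟨A, hfin⟩ := hw e he0
  have hbound : ∀ l : ℕ, c₀ * Real.exp (δ * (l * N - r)) ≤ A * Real.exp e ^ l := by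
    intro l
    have hq := hfin l (fl w l) (Tl_fl w l)
    have e2 : Real.exp (e * l) = Real.exp e ^ l := by
      rw [← Real.exp_nat_mul, mul_comm]
    rw [e2] at hq
    refine le_trans ?_ ((hgrow (fl w l)).trans hq)
    refine mul_le_mul_of_nonneg_left (Real.exp_le_exp.2 (mul_le_mul_of_nonneg_left ?_ hδ.le))
      hc₀.le
    have h1 : ∀ i, (l : ℝ) * |w i| - 1 ≤ |(fl w l i : ℝ)| := by
      intro i
      have h2 := Tl_fl w l i
      have h3 : |(l : ℝ) * w i| ≤ |(fl w l i : ℝ)| + |(fl w l i : ℝ) - l * w i| := by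
        have h4 := abs_sub_abs_le_abs_sub ((l : ℝ) * w i) (fl w l i)
        rw [abs_sub_comm ((l : ℝ) * w i)] at h4
        linarith
      rw [abs_mul, Nat.abs_cast] at h3
      linarith
    have h2 := Finset.sum_le_sum fun i (_ : i ∈ Finset.univ) => h1 i
    rw [Finset.sum_sub_distrib, ← Finset.mul_sum, ← hN] at h2
    simp only [Finset.sum_const, Finset.card_univ, Fintype.card_fin, nsmul_eq_mul, mul_one] at h2
    exact h2
  have h1 : ∀ l : ℕ, Real.exp (δ * N / 2) ^ l ≤ A * Real.exp (δ * r) / c₀ := by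
    intro l
    have h2 := hbound l
    have e1 : Real.exp (δ * (l * N - r)) =
        Real.exp (δ * N / 2) ^ l * Real.exp e ^ l / Real.exp (δ * r) := by
      rw [← Real.exp_nat_mul, ← Real.exp_nat_mul, ← Real.exp_add, ← Real.exp_sub, he]
      congr 1
      ring
    rw [e1] at h2
    have h3 : 0 < Real.exp e ^ l := by positivity
    have h4 : 0 < Real.exp (δ * r) := Real.exp_pos _
    rw [le_div_iff₀ hc₀]
    have h5 : c₀ * (Real.exp (δ * N / 2) ^ l * Real.exp e ^ l / Real.exp (δ * r)) =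
        (Real.exp (δ * N / 2) ^ l * c₀ / Real.exp (δ * r)) * Real.exp e ^ l := by ring
    rw [h5] at h2
    have h6 := le_of_mul_le_mul_right h2 h3
    rwa [div_le_iff₀ h4] at h6
  obtain ⟨l, hl⟩ := pow_unbounded_of_one_lt (A * Real.exp (δ * r) / c₀)
    (Real.one_lt_exp_iff.2 (show 0 < δ * N / 2 by positivity))
  exact absurd (h1 l) (not_le.2 hl)

/-- **The rank theorem** for intersection numbers. -/
theorem rank_lt (hJ : StmJ) (hCC : StmC) [IsDirected 𝒜 (· ≤ ·)] [Nonempty 𝒜]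
    (h : RSys n r t φ mul H m M ν c ε) (hr : 0 < r) {c₀ δ : ℝ} (hc₀ : 0 < c₀) (hδ : 0 < δ)
    (hgrow : ∀ v : Lat r, c₀ * Real.exp (δ * ∑ i, |(v i : ℝ)|) ≤
      t (φ v H ::ₘ replicate (n - 1) H)) : r + ν < n := by
  have hν := h.hν
  by_contra hcon
  obtain ⟨W, hW1, hW2, hW⟩ := rank_dir hJ hCC h
  have hW3 : W ≠ ⊥ := by
    rintro rfl
    rcases Nat.lt_or_ge ν n with h1 | h1
    · have h2 := hW1 h1
      rw [finrank_bot] at h2
      omega
    · have h2 := hW2 (le_antisymm hν h1)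
      have h3 : (fun _ : Fin r => (1 : ℝ)) ∈ (⊥ : Submodule ℝ (Fin r → ℝ)) := by
        rw [h2]
        trivial
      rw [Submodule.mem_bot] at h3
      have := congrFun h3 ⟨0, hr⟩
      simp at this
  obtain ⟨w, hw, hw0⟩ := Submodule.exists_mem_ne_zero_of_ne_bot hW3
  exact no_zero_dir hc₀ hδ hgrow hw0 (hW w hw)

end

end Pool.Agent.N110.RK
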