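import Pool.Agent.N110.Joint
import Pool.Agent.N110.QAdd
import Pool.Agent.N110.RK.Rank

/-!
The action of a lattice by birational self-maps which preserve `K_X + Δ`.
-/

set_option autoImplicit false
set_option linter.overlappingInstances false
set_option linter.unusedSectionVars false

open FF Module MvPolynomial Pool.Agent.W602.GT Pool.Agent.W603.LV
open Pool.Agent.Y172 Pool.Agent.Y191 Pool.Agent.R887

namespace Pool.Agent.N110.RK

section

variable {K : Type} [Field K] [Algebra ℂ K] {N n : ℕ} {y : Fin (N + 1) → K}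

/-- effective divisors -/
structure EffT (y : Fin (N + 1) → K) where
  A : Place ℂ K → ℚ
  eff : Effective y A

instance : Preorder (EffT y) where
  le A B := ∀ P, IsPrimeDivisor y P → A.A P ≤ B.A P
  le_refl A P _ := le_rfl
  le_trans A B C h1 h2 P hP := (h1 P hP).trans (h2 P hP)

theorem effT_le {A B : EffT y} : A ≤ B ↔ ∀ P, IsPrimeDivisor y P → A.A P ≤ B.A P := Iff.rfl

instance : IsDirected (EffT y) (· ≤ ·) where
  directed A B := by
    refine ⟨⟨A.A + B.A, Effective.add' A.eff B.eff⟩, fun P hP => ?_, fun P hP => ?_⟩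
    · have := B.eff.1 P hP
      change A.A P ≤ A.A P + B.A P
      linarith
    · have := A.eff.1 P hP
      change B.A P ≤ A.A P + B.A P
      linarith

/-- the divisor zero -/
def zeroE (y : Fin (N + 1) → K) : EffT y := ⟨0, fun _ _ => le_rfl, by
  refine Set.finite_empty.subset ?_
  rintro P ⟨-, h⟩
  exact h rfl⟩

instance : Nonempty (EffT y) := ⟨zeroE y⟩

theorem exists_rsys (hy : NormalModel y) (hn : Algebra.trdeg ℂ K = n) (hn0 : 0 < n)
    {i : Fin (N + 1)} (hi : y i ≠ 0) {Δ : Place ℂ K → ℚ}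
    (hΔ : {P | IsPrimeDivisor y P ∧ Δ P ≠ 0}.Finite) {r : ℕ} {φ : Lat r → (K ≃ₐ[ℂ] K)}
    (hφ : ∀ u v, φ (u + v) = φ u * φ v) (hP : ∀ v, PullLe (φ v) y n Δ) {ν : ℕ} (hν : ν ≤ n)
    (hnum : ¬ NumDimLt y n Δ ν) (hnum' : ν + 1 ≤ n → NumDimLt y n Δ (ν + 1)) :
    ∃ (m : ℕ → ℝ) (M : EffT y → ℕ → Cls ℂ (affS y i)) (c ε : ℝ),
      RSys n r (fun s : Multiset (Cls ℂ (affS y i)) => (I s : ℝ)) (fun v => mapCls hy hi (φ v))
        (mulCls (fin_affS i) (one_affS hi)) (hcls hy hi) m M ν c ε := by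
  classical
  have hess := hy.ess
  have cx := ctx hy hn hi
  obtain ⟨x, E, hx, hE⟩ := exists_crd hn (k := ℂ) (K := K)
  have hfr : IsFrame E := fun F => ⟨fun j => F (x j),
    (Pool.Agent.W73.PG.PULL.expand x hx E hE F).symm⟩
  obtain ⟨c, hcfin, hc⟩ := exists_ordc hy hn hx hE
  have hc' : IsDisc y E c := hc
  have hPull : ∀ φ : K ≃ₐ[ℂ] K, PullLe φ y n Δ → Pulls y c Δ φ := by
    intro φ hφ A hA
    obtain ⟨J, hJ0, hJ⟩ := exists_jac φ hE hfr
    obtain ⟨B, hB, hB1⟩ := pull_sections hy hA hφ hE hfr hc' hJ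
    exact ⟨J, hJ0, B, hB, hB1⟩
  obtain ⟨Hy, hHy, hHP⟩ := exists_hyp hy hi
  -- the sequence of sections
  unfold NumDimLt at hnum
  push Not at hnum
  obtain ⟨A0, hA0, ε, hε, hseq⟩ := hnum
  have hseq' : ∀ q : ℕ, ∃ m b : ℕ, q + 1 ≤ m ∧ (b : ℝ) ≤ 1 / (q + 1) * m ∧
      ∃ g : Fin (ν + 1) → K, (∀ j, g j ∈ Lsp y c m (m • Δ + b • A0)) ∧ g 0 ≠ 0 ∧
      ∃ u : Fin (n - ν) → K, (∀ a, IsPencil y (u a)) ∧
        ε * m ^ ν < degreeOver u (fun j : Fin ν => g j.succ / g 0) := by
    intro q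
    obtain ⟨m, b, hm, hb, u, hu, ω, E', hω, hω0, hlt⟩ := hseq (1 / ((q : ℝ) + 1))
      (by positivity) (q + 1)
    refine ⟨m, b, hm, hb, fun j => ω j E, fun j => ?_, ?_, u, hu, ?_⟩
    · exact (isSection_iff hc' (hω j).1).1 (hω j)
    · exact (ratio_frame hfr (hω 0).1 (hω 0).1 hω0).1
    · have e1 : (fun j : Fin ν => ω j.succ E / ω 0 E) = fun j : Fin ν => ω j.succ E' / ω 0 E' := by
        funext j
        exact ((ratio_frame hfr (hω 0).1 (hω j.succ).1 hω0).2).symm
      rw [e1]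
      exact hlt
  choose m b hm hb g hg hg0 u hu hdeg using hseq'
  -- the divisors
  obtain ⟨A1, hA1⟩ : ∃ A1, A1 = A0 + Hy := ⟨_, rfl⟩
  have hA1e : Effective y A1 := by rw [hA1]; exact Effective.add' hA0 hHy
  have hmem : ∀ A : EffT y, ∀ q l,
      g q 0 * (y l / y i) ∈ Lsp y c (m q) (m q • Δ + (b q + 1) • (A1 + A.A)) := by
    intro A q l
    refine Lsp_mono le_rfl hA1e.1 (fun P hP => ?_) ?_ (A := A1) (b := b q + 1)
    · have := A.eff.1 P hP
      change A1 P ≤ A1 P + A.A P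
      linarith
    · rw [hA1]
      exact mul_hyp hy hA0 hHy hHP hi (hg q 0) l
  -- the spaces
  obtain ⟨M, hMV⟩ : ∃ M : EffT y → ℕ → Cls ℂ (affS y i), ∀ A q,
      M A q = secCls hy hi hcfin hΔ (Effective.add' hA1e A.eff) (m q) (b q + 1) (hg0 q)
        (hmem A q) := ⟨_, fun _ _ => rfl⟩
  have hMmem : ∀ A q v, v ∈ (M A q).V ↔
      g q 0 * v ∈ Lsp y c (m q) (m q • Δ + (b q + 1) • (A1 + A.A)) := by
    intro A q v
    rw [hMV]
    rfl
  obtain ⟨β, f, hf, hdom⟩ := dom_sections hy hi hcfin hΔ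
  have hm1 : ∀ q, 1 ≤ m q := fun q => by have := hm q; omega
  -- pull back
  have hMpull : ∀ ψ : K ≃ₐ[ℂ] K, Pulls y c Δ ψ → ∀ A : EffT y,
      ∃ A' : EffT y, ∃ J : K, J ≠ 0 ∧ ∀ q, ∀ v ∈ (M A q).V,
        (J ^ m q * ψ (g q 0) / g q 0) * ψ v ∈ (M A' q).V := by
    intro ψ hψ A
    obtain ⟨J, hJ, B, hB, hB1⟩ := hψ (A1 + A.A) (Effective.add' hA1e A.eff)
    refine ⟨⟨B, hB⟩, J, hJ, fun q v hv => ?_⟩
    rw [hMmem] at hv ⊢
    have e1 := hB1 (m q) (b q + 1) (hm1 q) _ hv
    have e2 : g q 0 * (J ^ m q * ψ (g q 0) / g q 0 * ψ v) = J ^ m q * ψ (g q 0 * v) := by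
      rw [map_mul]
      have := hg0 q
      field_simp
    rw [e2]
    refine Lsp_mono le_rfl hB.1 (fun P hP => ?_) e1
    have := hA1e.1 P hP
    change B P ≤ A1 P + B P
    linarith
  refine ⟨fun q => (m q : ℝ), M, β + 1, ε, ?_⟩
  refine ⟨?_, exch cx, hn0, hν, by positivity, hε, ?_, ?_, ?_, ?_, ?_, ?_, ?_, ?_, ?_, ?_, ?_⟩
  · -- pos
    intro s hs
    beta_reduce
    exact_mod_cast I_pos cx hs
  · -- zero
    have h0 : φ 0 = 1 := by
      have h1 := hφ 0 0
      rw [add_zero] at h1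
      exact (mul_eq_left.1 h1.symm)
    funext A
    beta_reduce
    rw [h0, mapCls_one]
    rfl
  · -- add
    intro u v
    funext A
    change _ = mapCls hy hi (φ u) (mapCls hy hi (φ v) A)
    rw [mapCls_mapCls, hφ]
  · -- inv
    intro u s hs
    beta_reduce
    exact_mod_cast I_map hy hn hi (φ u) hs
  · -- mul_t
    intro a b s hs
    beta_reduce
    have h1 := I_add cx (D := mulCls (fin_affS i) (one_affS hi) a b) (V := a) (V' := b)
      le_rfl hs
    have h2 := I_mul_ge cx (D := mulCls (fin_affS i) (one_affS hi) a b) (V := a) (V' := b)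
      le_rfl hs
    exact_mod_cast le_antisymm h1 h2
  · -- m_pos
    intro q
    exact_mod_cast hm1 q
  · -- m_tend
    refine Filter.tendsto_atTop_mono (fun q => ?_) tendsto_natCast_atTop_atTop
    have := hm q
    exact_mod_cast (by omega : q ≤ m q)
  · -- mono
    intro A A' hAA q s hs
    rw [one_mul]
    refine Nat.cast_le.2 (I_mono cx (g := 1) one_ne_zero (fun v hv => ?_) hs)
    rw [one_mul]
    rw [hMmem] at hv ⊢
    refine Lsp_mono le_rfl (Effective.add' hA1e A.eff).1 (fun P hP => ?_) hv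
    have := hAA P hP
    change A1 P + A.A P ≤ A1 P + A'.A P
    linarith
  · -- M_f
    intro u A
    obtain ⟨A', J, hJ, hA'⟩ := hMpull (φ u) (hPull _ (hP u)) A
    refine ⟨A', fun q s hs => ?_⟩
    rw [one_mul]
    refine Nat.cast_le.2 (I_mono cx (g := J ^ m q * φ u (g q 0) / g q 0)
      (div_ne_zero (mul_ne_zero (pow_ne_zero _ hJ) (by rw [Ne, map_eq_zero]; exact hg0 q))
        (hg0 q)) ?_ hs)
    rintro _ ⟨v, hv, rfl⟩
    exact hA' q v hv
  · -- M_le
    intro A
    obtain ⟨βA, gA, hgA, hdomA⟩ := hdom (A1 + A.A) (Effective.add' hA1e A.eff)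
    filter_upwards [Filter.eventually_ge_atTop (2 * βA)] with q hq
    intro s hs
    have e1 := I_dom cx (V := M A q) (H := hcls hy hi) (fun v hv => hv)
      (B := m q * β + (b q + 1) * βA) (f := f ^ m q * gA ^ (b q + 1) * g q 0)
      (mul_ne_zero (mul_ne_zero (pow_ne_zero _ hf) (pow_ne_zero _ hgA)) (hg0 q))
      (fun v hv => by
        rw [mul_assoc]
        exact hdomA (m q) (b q + 1) _ ((hMmem A q v).1 hv)) hs
    have e2 : ((m q * β + (b q + 1) * βA : ℕ) : ℝ) ≤ ((β : ℝ) + 1) * m q := by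
      push_cast
      have hmq : ((q : ℝ) + 1) ≤ m q := by exact_mod_cast hm q
      have hbq := hb q
      have hq' : 2 * (βA : ℝ) ≤ q := by exact_mod_cast hq
      have hβ0 : (0 : ℝ) ≤ βA := Nat.cast_nonneg _
      have hm0 : (0 : ℝ) ≤ m q := Nat.cast_nonneg _
      have e3 : (b q : ℝ) * βA ≤ m q / 2 := by
        have e4 : (b q : ℝ) * βA ≤ 1 / ((q : ℝ) + 1) * m q * βA :=
          mul_le_mul_of_nonneg_right hbq hβ0
        have e5 : 1 / ((q : ℝ) + 1) * m q * βA = m q * (βA / (q + 1)) := by ring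
        have e6 : (βA : ℝ) / (q + 1) ≤ 1 / 2 := by
          rw [div_le_div_iff₀ (by positivity) (by norm_num)]
          linarith
        have e7 := mul_le_mul_of_nonneg_left e6 hm0
        linarith
      nlinarith
    calc ((I (M A q ::ₘ s) : ℕ) : ℝ) ≤ ((m q * β + (b q + 1) * βA : ℕ) : ℝ) *
          (I (hcls hy hi ::ₘ s) : ℝ) := by exact_mod_cast e1
      _ ≤ ((β : ℝ) + 1) * m q * (I (hcls hy hi ::ₘ s) : ℝ) :=
        mul_le_mul_of_nonneg_right e2 (Nat.cast_nonneg _)
  · -- eps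
    refine ⟨zeroE y, Filter.Eventually.of_forall fun q => ?_⟩
    obtain ⟨Z, hZ⟩ : ∃ Z : EffT y, Z = zeroE y := ⟨_, rfl⟩
    rw [← hZ]
    have hcard : (Multiset.replicate ν (M Z q) + Multiset.replicate (n - ν)
        (hcls hy hi)).card = n := by
      rw [Multiset.card_add, Multiset.card_replicate, Multiset.card_replicate]
      omega
    have e1 : degreeOver (u q) (fun j : Fin ν => g q j.succ / g q 0) =
        dm ℂ (toM (u q) + toM (fun j : Fin ν => g q j.succ / g q 0)) :=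
      deg_dm (toM_set _) (toM_set _)
    obtain ⟨Q', hQ', e2⟩ := replace_pencils' hy hn hi (toM (u q))
      (toM (fun j : Fin ν => g q j.succ / g q 0))
      (by rw [Multiset.card_add, toM_card, toM_card]; omega) (fun z hz => by
        obtain ⟨j, rfl⟩ := mem_toM.1 hz
        exact hu q j)
    rw [toM_card] at hQ'
    have hsel : Sel (toM (fun j : Fin ν => g q j.succ / g q 0))
        (Multiset.replicate ν (M Z q)) := by
      rw [sel_rep]
      refine ⟨toM_card _, fun z hz => ?_⟩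
      obtain ⟨j, rfl⟩ := mem_toM.1 hz
      rw [hMmem]
      have e3 : g q 0 * (g q j.succ / g q 0) = g q j.succ := mul_div_cancel₀ _ (hg0 q)
      rw [e3]
      refine Lsp_mono (Nat.le_succ _) hA0.1 (fun P hP => ?_) (hg q j.succ)
      have e4 := hHy.1 P hP
      have e5 := Z.eff.1 P hP
      rw [hA1]
      change A0 P ≤ A0 P + Hy P + Z.A P
      linarith
    have e3 := le_I cx hcard (sel_add hsel hQ')
    have e4 : degreeOver (u q) (fun j : Fin ν => g q j.succ / g q 0) ≤
        I (Multiset.replicate ν (M Z q) + Multiset.replicate (n - ν) (hcls hy hi)) := by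
      rw [e1]
      rw [add_comm] at e3
      exact e2.trans e3
    have e5 : ((degreeOver (u q) (fun j : Fin ν => g q j.succ / g q 0) : ℕ) : ℝ) ≤
        (I (Multiset.replicate ν (M Z q) + Multiset.replicate (n - ν) (hcls hy hi)) : ℝ) :=
      Nat.cast_le.2 e4
    exact (hdeg q).le.trans e5
  · -- zero
    intro hν1 A δ hδ
    obtain ⟨tt, htt, m0, hnd⟩ := hnum' hν1 (A1 + A.A) (Effective.add' hA1e A.eff) δ hδ
    obtain ⟨q0, hq0⟩ := exists_nat_gt (2 / tt)
    filter_upwards [Filter.eventually_ge_atTop (max m0 (q0 + 1))] with q hq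
    have hq1 : m0 ≤ q := (le_max_left _ _).trans hq
    have hq2 : q0 + 1 ≤ q := (le_max_right _ _).trans hq
    have hcard : (Multiset.replicate (ν + 1) (M A q) + Multiset.replicate (n - (ν + 1))
        (hcls hy hi)).card = n := by
      rw [Multiset.card_add, Multiset.card_replicate, Multiset.card_replicate]
      omega
    obtain ⟨W, hW, e⟩ := exists_max cx hcard
    obtain ⟨W1, W2, s1, s2, rfl⟩ := sel_add_right hW
    rw [sel_rep] at s1 s2
    obtain ⟨w1, hw1⟩ := exists_fin W1 s1.1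
    obtain ⟨w2, hw2⟩ := exists_fin W2 s2.1
    have hw1m : ∀ j, w1 j ∈ (M A q).V := by
      intro j
      have h3 : w1 j ∈ {x | x ∈ W1} := by
        rw [hw1]
        exact ⟨j, rfl⟩
      exact s1.2 _ h3
    have hw2m : ∀ j, w2 j ∈ Submodule.span ℂ (affS y i) := by
      intro j
      have h3 : w2 j ∈ {x | x ∈ W2} := by
        rw [hw2]
        exact ⟨j, rfl⟩
      exact s2.2 _ h3
    have hbt : ((b q + 1 : ℕ) : ℝ) ≤ tt * m q := by
      push_cast
      have hmq : ((q : ℝ) + 1) ≤ m q := by exact_mod_cast hm q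
      have hbq := hb q
      have hq2' : (q0 : ℝ) + 1 ≤ q := by exact_mod_cast hq2
      have e1 : 1 / ((q : ℝ) + 1) ≤ tt / 2 := by
        rw [div_le_div_iff₀ (by positivity) (by norm_num)]
        have e2 : 2 / tt * tt = 2 := by field_simp
        have e3 := mul_lt_mul_of_pos_right hq0 htt
        rw [e2] at e3
        nlinarith
      have e2 : (1 : ℝ) ≤ 1 / ((q : ℝ) + 1) * m q := by
        rw [one_div, inv_mul_eq_div, le_div_iff₀ (by positivity), one_mul]
        exact hmq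
      have e3 : 1 / ((q : ℝ) + 1) * m q ≤ tt / 2 * m q :=
        mul_le_mul_of_nonneg_right e1 (Nat.cast_nonneg _)
      linarith
    have hbd := hnd (m q) (b q + 1) (by have := hm q; omega) hbt w2
      (fun a => pencil_span hi (hw2m a))
      (Fin.cons (frm x (m q) (g q 0)) fun j => frm x (m q) (g q 0 * w1 j)) E (fun j => by
        refine Fin.cases ?_ (fun j => ?_) j
        · rw [Fin.cons_zero, isSection_iff hc' (frm_pluri x _ _), frm_self hE]
          have := hmem A q i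
          rwa [div_self hi, mul_one] at this
        · rw [Fin.cons_succ, isSection_iff hc' (frm_pluri x _ _), frm_self hE]
          exact (hMmem A q _).1 (hw1m j)) (by
        rw [Fin.cons_zero, frm_self hE]
        exact hg0 q)
    have e1 : (fun j : Fin (ν + 1) => (Fin.cons (frm x (m q) (g q 0))
        (fun j => frm x (m q) (g q 0 * w1 j)) : Fin (ν + 1 + 1) → _ → K) j.succ E /
        (Fin.cons (frm x (m q) (g q 0)) (fun j => frm x (m q) (g q 0 * w1 j)) :
          Fin (ν + 1 + 1) → _ → K) 0 E) = w1 := by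
      funext j
      rw [Fin.cons_succ, Fin.cons_zero, frm_self hE, frm_self hE]
      exact mul_div_cancel_left₀ _ (hg0 q)
    rw [e1, deg_dm hw2 hw1, add_comm W2 W1, e] at hbd
    exact hbd

end

end Pool.Agent.N110.RK
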