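import Pool.Agent.N110.RK.Defs

/-!
Forms on the lattice: basic properties.
-/

set_option autoImplicit false

open Multiset Filter Topology

namespace Pool.Agent.N110.RK

section

variable {G : Type}

theorem mix_single (v : G) (c : ℝ) (J : Multiset G → ℝ) (s : Multiset G) :
    mix (Finsupp.single v c) J s = c * J (v ::ₘ s) := by
  unfold mix
  rw [Finsupp.sum_single_index (by rw [zero_mul])]

theorem mixL_singles (R : List G) : ∀ (J : Multiset G → ℝ) (s : Multiset G),
    mixL (R.map fun v => Finsupp.single v 1) J s = J ((R : Multiset G) + s) := by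
  induction R with
  | nil =>
    intro J s
    simp [mixL]
  | cons v R ih =>
    intro J s
    rw [List.map_cons, mixL, ih, mix_single, one_mul, ← Multiset.cons_coe, Multiset.cons_add]

theorem GE.exch {k : ℕ} {J : Multiset G → ℝ} (h : GE k J) : Exch k J := by
  intro R hR a b c d
  have h1 := h (R.toList.map fun v => Finsupp.single v 1) (by
    intro θ hθ v
    obtain ⟨w, -, rfl⟩ := List.mem_map.1 hθ
    classical
    rw [Finsupp.single_apply]
    split_ifs <;> norm_num) (by
    rw [List.length_map, Multiset.length_toList]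
    exact hR) a b c d
  have e : ∀ x y : G, mixL (R.toList.map fun v => Finsupp.single v 1) J (x ::ₘ y ::ₘ 0) =
      J (x ::ₘ y ::ₘ R) := by
    intro x y
    rw [mixL_singles, Multiset.coe_toList, Multiset.add_cons, Multiset.add_cons, add_zero]
  rw [e, e, e, e, e, e] at h1
  exact h1

theorem GE.mix {k : ℕ} {J : Multiset G → ℝ} (h : GE (k + 1) J) {θ : G →₀ ℝ}
    (hθ : ∀ v, 0 ≤ θ v) : GE k (mix θ J) := by
  intro θs h1 h2 a b c d
  exact h (θ :: θs) (by
    intro θ' h'
    rcases List.mem_cons.1 h' with rfl | h'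
    · exact hθ
    · exact h1 θ' h') (by rw [List.length_cons]; omega) a b c d

theorem continuous_mix (θ : G →₀ ℝ) : Continuous (mix θ : (Multiset G → ℝ) → (Multiset G → ℝ)) := by
  refine continuous_pi fun s => ?_
  unfold mix Finsupp.sum
  exact continuous_finsetSum _ fun v _ => continuous_const.mul (continuous_apply _)

theorem continuous_mixL (θs : List (G →₀ ℝ)) :
    Continuous (mixL θs : (Multiset G → ℝ) → (Multiset G → ℝ)) := by
  induction θs with
  | nil => exact continuous_id
  | cons θ θs ih => exact ih.comp (continuous_mix θ)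

theorem continuous_mixL_apply (θs : List (G →₀ ℝ)) (s : Multiset G) :
    Continuous fun J : Multiset G → ℝ => mixL θs J s :=
  (continuous_apply s).comp (continuous_mixL θs)

theorem isClosed_GE (k : ℕ) : IsClosed {J : Multiset G → ℝ | GE k J} := by
  unfold GE
  simp only [Set.ofPred_forall]
  refine isClosed_iInter fun θs => isClosed_iInter fun _ => isClosed_iInter fun _ =>
    isClosed_iInter fun a => isClosed_iInter fun b => isClosed_iInter fun c =>
    isClosed_iInter fun d => ?_
  refine isClosed_le ?_ ?_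
  · exact (continuous_mixL_apply θs _).mul (continuous_mixL_apply θs _)
  · exact continuous_const.mul (((continuous_mixL_apply θs _).mul (continuous_mixL_apply θs _)).add
      ((continuous_mixL_apply θs _).mul (continuous_mixL_apply θs _)))

end

section

variable {r : ℕ} {C : Lat r → ℝ} {k : ℕ} {J : Multiset (Lat r) → ℝ} {ψ : Fin r → ℝ}

/-- the elements of `s` are replaced by `0` -/
theorem rep_le (hC : ∀ v, 1 ≤ C v) (hdom : ∀ v w s, J (v ::ₘ s) ≤ C (v - w) * J (w ::ₘ s))
    (s : Multiset (Lat r)) : ∀ R : Multiset (Lat r),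
    J (replicate s.card 0 + R) ≤ (s.map fun v => C (-v)).prod * J (s + R) := by
  induction s using Multiset.induction_on with
  | empty => intro R; simp
  | cons v s ih =>
    intro R
    have h1 := ih (0 ::ₘ R)
    have h2 := hdom 0 v (s + R)
    rw [card_cons, replicate_succ, map_cons, prod_cons]
    have e1 : (0 : Lat r) ::ₘ replicate s.card 0 + R = replicate s.card 0 + 0 ::ₘ R := by
      rw [cons_add, add_cons]
    have e2 : s + (0 : Lat r) ::ₘ R = 0 ::ₘ (s + R) := by rw [add_cons]
    rw [e1]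
    rw [e2] at h1
    rw [zero_sub] at h2
    have hP : 0 ≤ (s.map fun v => C (-v)).prod := by
      refine prod_nonneg fun a ha => ?_
      obtain ⟨w, -, rfl⟩ := mem_map.1 ha
      exact zero_le_one.trans (hC _)
    rw [cons_add]
    calc J (replicate s.card 0 + 0 ::ₘ R) ≤ (s.map fun v => C (-v)).prod * J (0 ::ₘ (s + R)) := h1
      _ ≤ (s.map fun v => C (-v)).prod * (C (-v) * J (v ::ₘ (s + R))) :=
        mul_le_mul_of_nonneg_left h2 hP
      _ = C (-v) * (s.map fun v => C (-v)).prod * J (v ::ₘ (s + R)) := by ring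

/-- the elements of `s` are dominated -/
theorem le_rep (hC : ∀ v, 1 ≤ C v) (hdom : ∀ v w s, J (v ::ₘ s) ≤ C (v - w) * J (w ::ₘ s))
    (s : Multiset (Lat r)) : ∀ R : Multiset (Lat r),
    J (s + R) ≤ (s.map fun v => C v).prod * J (replicate s.card 0 + R) := by
  induction s using Multiset.induction_on with
  | empty => intro R; simp
  | cons v s ih =>
    intro R
    have h1 := ih (0 ::ₘ R)
    have h2 := hdom v 0 (s + R)
    rw [card_cons, replicate_succ, map_cons, prod_cons]
    have e1 : (0 : Lat r) ::ₘ replicate s.card 0 + R = replicate s.card 0 + 0 ::ₘ R := by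
      rw [cons_add, add_cons]
    have e2 : s + (0 : Lat r) ::ₘ R = 0 ::ₘ (s + R) := by rw [add_cons]
    rw [e1, cons_add]
    rw [e2] at h1
    rw [sub_zero] at h2
    calc J (v ::ₘ (s + R)) ≤ C v * J (0 ::ₘ (s + R)) := h2
      _ ≤ C v * ((s.map fun v => C v).prod * J (replicate s.card 0 + 0 ::ₘ R)) :=
        mul_le_mul_of_nonneg_left h1 (zero_le_one.trans (hC _))
      _ = C v * (s.map fun v => C v).prod * J (replicate s.card 0 + 0 ::ₘ R) := by ring

theorem Fm.pos (hC : ∀ v, 1 ≤ C v) (h : Fm C k J ψ) (s : Multiset (Lat r)) (hs : s.card = k) :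
    0 < J s := by
  have h1 := rep_le hC h.dom s 0
  rw [add_zero, add_zero, hs, h.norm] at h1
  by_contra hcon
  have h2 : J s = 0 := le_antisymm (not_lt.1 hcon) (h.nonneg s)
  rw [h2, mul_zero] at h1
  linarith

theorem Fm.exch (h : Fm C k J ψ) : Exch k J := h.ge.exch

/-- the degrees are submultiplicative -/
theorem Fm.sub (hC : ∀ v, 1 ≤ C v) (h : Fm C (k + 1) J ψ) (u v : Lat r) :
    dg (k + 1) J (u + v) ≤ 4 ^ k * (dg (k + 1) J u * dg (k + 1) J v) := by
  have hpos := h.pos hC
  have h1 := rkt1 hpos h.exch u (u + v) (replicate k 0) 0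
    (by rw [card_replicate, card_zero]; omega)
  rw [card_replicate, add_zero, add_zero, add_zero] at h1
  have e1 : replicate (k + 1) u = (replicate (k + 1) (0 : Lat r)).map (fun v => u + v) := by
    rw [map_replicate, add_zero]
  have e2 : (u + v) ::ₘ replicate k u = (v ::ₘ replicate k 0).map (fun v => u + v) := by
    rw [map_cons, map_replicate, add_zero]
  rw [e1, e2, h.inv, h.inv, h.norm, mul_one] at h1
  unfold dg
  rw [Nat.add_sub_cancel]
  have h2 := Real.exp_pos (∑ i, ψ i * (u i : ℝ))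
  have h3 : Real.exp (∑ i, ψ i * (u i : ℝ)) * J ((u + v) ::ₘ replicate k 0) ≤
      Real.exp (∑ i, ψ i * (u i : ℝ)) *
        (4 ^ k * (J (u ::ₘ replicate k 0) * J (v ::ₘ replicate k 0))) := by linarith
  exact le_of_mul_le_mul_left h3 h2

/-- the bounds for the mixed forms -/
theorem mix_nonneg (h : ∀ s, 0 ≤ J s) {θ : Lat r →₀ ℝ} (hθ : ∀ v, 0 ≤ θ v) (s) :
    0 ≤ mix θ J s := by
  unfold mix Finsupp.sum
  exact Finset.sum_nonneg fun v _ => mul_nonneg (hθ v) (h _)

theorem mix_zero (h : ∀ s, s.card ≠ k + 1 → J s = 0) {θ : Lat r →₀ ℝ} (s : Multiset (Lat r))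
    (hs : s.card ≠ k) : mix θ J s = 0 := by
  unfold mix Finsupp.sum
  refine Finset.sum_eq_zero fun v _ => ?_
  beta_reduce
  rw [h _ (by rw [card_cons]; omega), mul_zero]

theorem mix_dom (h : ∀ v w s, J (v ::ₘ s) ≤ C (v - w) * J (w ::ₘ s)) {θ : Lat r →₀ ℝ}
    (hθ : ∀ v, 0 ≤ θ v) (v w : Lat r) (s : Multiset (Lat r)) :
    mix θ J (v ::ₘ s) ≤ C (v - w) * mix θ J (w ::ₘ s) := by
  unfold mix Finsupp.sum
  rw [Finset.mul_sum]
  refine Finset.sum_le_sum fun u _ => ?_
  have h1 := h v w (u ::ₘ s)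
  rw [cons_swap v u, cons_swap w u] at h1
  calc θ u * J (u ::ₘ v ::ₘ s) ≤ θ u * (C (v - w) * J (u ::ₘ w ::ₘ s)) :=
        mul_le_mul_of_nonneg_left h1 (hθ u)
    _ = C (v - w) * (θ u * J (u ::ₘ w ::ₘ s)) := by ring

/-- the properties of the elements of the cone -/
theorem cone_prop (h : Fm C (k + 1) J ψ) {L : Multiset (Lat r) → ℝ} (hL : L ∈ cone J) :
    (∀ s, 0 ≤ L s) ∧ (∀ s, s.card ≠ k → L s = 0) ∧
      (∀ v w s, L (v ::ₘ s) ≤ C (v - w) * L (w ::ₘ s)) ∧ GE k L := by
  have hcl : IsClosed {L : Multiset (Lat r) → ℝ | (∀ s, 0 ≤ L s) ∧ (∀ s, s.card ≠ k → L s = 0) ∧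
      (∀ v w s, L (v ::ₘ s) ≤ C (v - w) * L (w ::ₘ s)) ∧ GE k L} := by
    refine IsClosed.and ?_ (IsClosed.and ?_ (IsClosed.and ?_ (isClosed_GE k)))
    · simp only [Set.ofPred_forall]
      exact isClosed_iInter fun s => isClosed_le continuous_const (continuous_apply s)
    · simp only [Set.ofPred_forall]
      exact isClosed_iInter fun s => isClosed_iInter fun _ =>
        isClosed_eq (continuous_apply s) continuous_const
    · simp only [Set.ofPred_forall]
      exact isClosed_iInter fun v => isClosed_iInter fun w => isClosed_iInter fun s =>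
        isClosed_le (continuous_apply _) (continuous_const.mul (continuous_apply _))
  refine closure_minimal ?_ hcl hL
  rintro X ⟨θ, hθ, rfl⟩
  exact ⟨mix_nonneg h.nonneg hθ, mix_zero h.zero, mix_dom h.dom hθ, h.ge.mix hθ⟩

/-- the joint exchange inequality of a form and an element of its cone -/
theorem joint (h : Fm C (k + 2) J ψ) {L : Multiset (Lat r) → ℝ} (hL : L ∈ cone J)
    (s : Multiset (Lat r)) (hs : s.card = k) (x y z : Lat r) :
    L (x ::ₘ s) * J (y ::ₘ z ::ₘ s) ≤
      2 * (L (y ::ₘ s) * J (x ::ₘ z ::ₘ s) + L (z ::ₘ s) * J (x ::ₘ y ::ₘ s)) := by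
  have hcl : IsClosed {L : Multiset (Lat r) → ℝ | L (x ::ₘ s) * J (y ::ₘ z ::ₘ s) ≤
      2 * (L (y ::ₘ s) * J (x ::ₘ z ::ₘ s) + L (z ::ₘ s) * J (x ::ₘ y ::ₘ s))} :=
    isClosed_le (by fun_prop) (by fun_prop)
  refine closure_minimal ?_ hcl hL
  rintro X ⟨θ, hθ, rfl⟩
  simp only [Set.mem_setOf_eq]
  unfold mix Finsupp.sum
  rw [Finset.sum_mul, Finset.sum_mul, Finset.sum_mul, ← Finset.sum_add_distrib, Finset.mul_sum]
  refine Finset.sum_le_sum fun u _ => ?_
  have h1 := h.exch s (by omega) u x y z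
  have h2 := mul_le_mul_of_nonneg_left h1 (hθ u)
  linarith

end

end Pool.Agent.N110.RK
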