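import Pool.Agent.N110.Grow

/-!
Forms on the lattice `ℤ ^ r` with the exchange property for all combinations: definitions.
-/

set_option autoImplicit false

open Multiset Filter Topology

namespace Pool.Agent.N110.RK

/-- the lattice -/
abbrev Lat (r : ℕ) : Type := Fin r → ℤ

section

variable {G : Type}

/-- the form `J` with one entry replaced by a combination -/
noncomputable def mix (θ : G →₀ ℝ) (J : Multiset G → ℝ) : Multiset G → ℝ :=
  fun s => θ.sum fun v c => c * J (v ::ₘ s)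

/-- the form `J` with several entries replaced by combinations -/
noncomputable def mixL : List (G →₀ ℝ) → (Multiset G → ℝ) → (Multiset G → ℝ)
  | [], J => J
  | θ :: θs, J => mixL θs (mix θ J)

/-- the exchange inequality for all combinations -/
def GE (k : ℕ) (J : Multiset G → ℝ) : Prop :=
  ∀ θs : List (G →₀ ℝ), (∀ θ ∈ θs, ∀ v, 0 ≤ θ v) → θs.length + 2 = k → ∀ a b c d : G,
    mixL θs J (a ::ₘ b ::ₘ 0) * mixL θs J (c ::ₘ d ::ₘ 0) ≤
      2 * (mixL θs J (a ::ₘ c ::ₘ 0) * mixL θs J (b ::ₘ d ::ₘ 0) +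
        mixL θs J (a ::ₘ d ::ₘ 0) * mixL θs J (b ::ₘ c ::ₘ 0))

end

/-- forms of degree `k` on the lattice, with a character -/
structure Fm {r : ℕ} (C : Lat r → ℝ) (k : ℕ) (J : Multiset (Lat r) → ℝ) (ψ : Fin r → ℝ) :
    Prop where
  nonneg : ∀ s, 0 ≤ J s
  zero : ∀ s, s.card ≠ k → J s = 0
  norm : J (replicate k 0) = 1
  dom : ∀ v w s, J (v ::ₘ s) ≤ C (v - w) * J (w ::ₘ s)
  ge : GE k J
  inv : ∀ (u : Lat r) s, J (s.map (fun v => u + v)) = Real.exp (∑ i, ψ i * (u i : ℝ)) * J s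

/-- the degree of `v` for a form of degree `k` -/
noncomputable def dg {r : ℕ} (k : ℕ) (J : Multiset (Lat r) → ℝ) (v : Lat r) : ℝ :=
  J (v ::ₘ replicate (k - 1) 0)

/-- lattice points near a ray -/
noncomputable def fl {r : ℕ} (w : Fin r → ℝ) (l : ℕ) : Lat r := fun i => ⌊(l : ℝ) * w i⌋

/-- zero growth along a ray -/
def ZG {r : ℕ} (k : ℕ) (J : Multiset (Lat r) → ℝ) (w : Fin r → ℝ) : Prop :=
  ∀ ε : ℝ, 0 < ε → ∃ B : ℝ, ∀ l : ℕ, dg k J (fl w l) ≤ B * Real.exp (ε * l)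

/-- the closed cone spanned by the forms `J (v, ·)` -/
def cone {r : ℕ} (J : Multiset (Lat r) → ℝ) : Set (Multiset (Lat r) → ℝ) :=
  closure {X | ∃ θ : Lat r →₀ ℝ, (∀ v, 0 ≤ θ v) ∧ X = mix θ J}

/-- intersection numbers with an action of the lattice `ℤ ^ r` and a sequence of elements which is
almost invariant -/
structure RSys {α 𝒜 : Type} [Preorder 𝒜] (n r : ℕ) (t : Multiset α → ℝ) (φ : Lat r → α → α)
    (mul : α → α → α) (H : α) (m : ℕ → ℝ) (M : 𝒜 → ℕ → α) (ν : ℕ) (c ε : ℝ) : Prop where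
  pos : ∀ s : Multiset α, s.card = n → 0 < t s
  ex : Exch n t
  hn : 0 < n
  hν : ν ≤ n
  hc : 0 < c
  hε : 0 < ε
  φ_zero : φ 0 = id
  φ_add : ∀ u v, φ (u + v) = φ u ∘ φ v
  inv : ∀ u (s : Multiset α), s.card = n → t (s.map (φ u)) = t s
  mul_t : ∀ a b (s : Multiset α), s.card + 1 = n →
    t (mul a b ::ₘ s) = t (a ::ₘ s) + t (b ::ₘ s)
  m_pos : ∀ q, 0 < m q
  m_tend : Tendsto m atTop atTop
  mono : ∀ a a', a ≤ a' → ∀ q, Le n t 1 (M a q) (M a' q)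
  M_f : ∀ u a, ∃ a', ∀ q, Le n t 1 (φ u (M a q)) (M a' q)
  M_le : ∀ a, ∀ᶠ q in atTop, Le n t (c * m q) (M a q) H
  eps : ∃ a, ∀ᶠ q in atTop, ε * m q ^ ν ≤ t (replicate ν (M a q) + replicate (n - ν) H)
  zero : ν + 1 ≤ n → ∀ a, ∀ δ : ℝ, 0 < δ → ∀ᶠ q in atTop,
    t (replicate (ν + 1) (M a q) + replicate (n - (ν + 1)) H) ≤ δ * m q ^ (ν + 1)

end Pool.Agent.N110.RK
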