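import Pool.Agent.N110.RK.Basic

/-!
The steps of the proof of the rank theorem, as statements.
-/

set_option autoImplicit false

open Multiset Filter Topology

namespace Pool.Agent.N110.RK

/-- existence of common eigenvectors in cones with a compact basis -/
def StmEig : Prop :=
  ∀ (E : Type) [AddCommGroup E] [Module ℝ E] [TopologicalSpace E] [IsTopologicalAddGroup E]
    [ContinuousSMul ℝ E] [T2Space E] [LocallyConvexSpace ℝ E] (ι : Type) [Fintype ι] [Nonempty ι]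
    (𝓛 : Set E) (N : E →L[ℝ] ℝ) (T : ι → E →L[ℝ] E) (x₀ : E) (B : ℝ),
    (∀ x ∈ 𝓛, ∀ y ∈ 𝓛, x + y ∈ 𝓛) → (∀ c : ℝ, 0 ≤ c → ∀ x ∈ 𝓛, c • x ∈ 𝓛) →
    IsCompact {x | x ∈ 𝓛 ∧ N x = 1} →
    (∀ i j x, T i (T j x) = T j (T i x)) → (∀ i, ∀ x ∈ 𝓛, T i x ∈ 𝓛) →
    (∀ i, ∀ x ∈ 𝓛, N x = 1 → 0 < N (T i x)) →
    x₀ ∈ 𝓛 → N x₀ = 1 →
    (∀ l l' : ℕ, N ((∑ i, T i)^[l + l'] x₀) ≤
      B * (N ((∑ i, T i)^[l] x₀) * N ((∑ i, T i)^[l'] x₀))) →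
    ∃ x ∈ 𝓛, N x = 1 ∧ ∀ i, ∃ c : ℝ, 0 < c ∧ T i x = c • x

/-- existence of semi-invariant forms of smaller degree -/
def StmA : Prop :=
  ∀ (r : ℕ) (C : Lat r → ℝ), (∀ v, 1 ≤ C v) → ∀ (k : ℕ) (J : Multiset (Lat r) → ℝ)
    (ψ : Fin r → ℝ), Fm C (k + 1) J ψ → ∃ L ∈ cone J, ∃ ψ' : Fin r → ℝ, Fm C k L ψ'

/-- zero growth of the smaller form implies zero growth -/
def StmB : Prop :=
  ∀ (r : ℕ) (C : Lat r → ℝ), (∀ v, 1 ≤ C v) → ∀ (k : ℕ) (J : Multiset (Lat r) → ℝ)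
    (ψ : Fin r → ℝ), Fm C (k + 2) J ψ → ∀ (L : Multiset (Lat r) → ℝ) (ψ' : Fin r → ℝ),
    L ∈ cone J → Fm C (k + 1) L ψ' → ∀ w : Fin r → ℝ, ∑ i, ψ i * w i = 0 →
    ZG (k + 1) L w → ZG (k + 1) L (-w) → ZG (k + 2) J w

/-- a large space of directions with zero growth -/
def StmC : Prop :=
  ∀ (r : ℕ) (C : Lat r → ℝ), (∀ v, 1 ≤ C v) → ∀ (k : ℕ) (J : Multiset (Lat r) → ℝ)
    (ψ : Fin r → ℝ), Fm C (k + 1) J ψ → ∃ W : Submodule ℝ (Fin r → ℝ),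
    r ≤ Module.finrank ℝ W + (k + 1) ∧ ((∀ i, ψ i = 0) → r ≤ Module.finrank ℝ W + k) ∧
    ∀ w ∈ W, ZG (k + 1) J w

/-- the exchange inequality for all combinations, from additivity -/
def StmGE : Prop :=
  ∀ (α G : Type) (n : ℕ) (t : Multiset α → ℝ) (mul : α → α → α) (o : G → α)
    (J : Multiset G → ℝ), (∀ s : Multiset α, s.card = n → 0 < t s) → Exch n t →
    (∀ a b (s : Multiset α), s.card + 1 = n → t (mul a b ::ₘ s) = t (a ::ₘ s) + t (b ::ₘ s)) →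
    (∀ s : Multiset G, s.card = n → J s = t (s.map o)) → GE n J

/-- the limit form -/
def StmJ : Prop :=
  ∀ (α 𝒜 : Type) [Preorder 𝒜] [IsDirected 𝒜 (· ≤ ·)] [Nonempty 𝒜] (n r : ℕ)
    (t : Multiset α → ℝ) (φ : Lat r → α → α) (mul : α → α → α) (H : α) (m : ℕ → ℝ)
    (M : 𝒜 → ℕ → α) (ν : ℕ) (c ε : ℝ), RSys n r t φ mul H m M ν c ε →
    ∀ 𝒰 : Ultrafilter ℕ, (𝒰 : Filter ℕ) ≤ atTop →
    ∃ C : Lat r → ℝ, (∀ v, 1 ≤ C v) ∧ ∃ (J : Multiset (Lat r) → ℝ) (κ : ℝ), 0 < κ ∧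
      Fm C (n - ν) J 0 ∧ ∀ (a : 𝒜) (s : Multiset (Lat r)), s.card = n - ν → ∀ δ : ℝ, 0 < δ →
        ∀ᶠ q in (𝒰 : Filter ℕ), t (replicate ν (M a q) + s.map (fun v => φ v H)) ≤
          (κ * J s + δ) * m q ^ ν

end Pool.Agent.N110.RK
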