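import Pool.Agent.N110.Sys

/-!
The growth of mixed products for families of maps, along a filter.
-/

set_option autoImplicit false

open Multiset Filter Topology

namespace Pool.Agent.N110.RK

variable {α 𝒜 : Type*}

structure SysF (𝓕 : Filter ℕ) (n : ℕ) (t : Multiset α → ℝ) (W : ℕ → Set (α → α)) (H : α) (m : ℕ → ℝ)
    (M : 𝒜 → ℕ → α) (D : α → ℕ → α) (ν : ℕ) (c ε C₁ : ℝ) : Prop where
  pos : ∀ s : Multiset α, s.card = n → 0 < t s
  ex : Exch n t
  hn : 0 < n
  hν : ν ≤ n
  hc : 0 < c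
  hε : 0 < ε
  one : id ∈ W 0
  zero_id : ∀ F ∈ W 0, F = id
  split : ∀ l k, ∀ F ∈ W (l + k), ∃ F₁ ∈ W l, ∃ F₂ ∈ W k, F = F₁ ∘ F₂
  deg : ∀ l, ∀ F ∈ W l, ∃ δ : ℝ, 0 < δ ∧ ∀ s : Multiset α, s.card = n → t (s.map F) = δ * t s
  H_deg : ∀ F ∈ W 1, t (F H ::ₘ replicate (n - 1) H) ≤ C₁
  m_pos : ∀ q, 0 < m q
  m_tend : Tendsto m 𝓕 atTop
  dir : ∀ a a', ∃ a'', ∀ q, LeW n t W 1 (M a q) (M a'' q) ∧ LeW n t W 1 (M a' q) (M a'' q)
  M_f : ∀ k, ∀ G ∈ W k, ∀ a, ∃ a', ∀ q, LeW n t W 1 (G (M a q)) (M a' q)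
  M_le : ∀ a, ∀ᶠ q in 𝓕, LeW n t W (c * m q) (M a q) H
  D_add : ∀ a v, 0 < v → ∀ l, ∀ F ∈ W l, ∀ s : Multiset α, s.card + 1 = n →
    t (F (D a v) ::ₘ s) ≤ t (F a ::ₘ s) + v * t (F H ::ₘ s)
  D_M : ∀ a v, 0 < v → Le n t 1 a (D a v)
  D_H : ∀ a v, 0 < v → ∀ s : Multiset α, s.card + 1 = n → v * t (H ::ₘ s) ≤ t (D a v ::ₘ s)
  eps : ∀ l, ∀ F ∈ W l, ∃ a, ∀ᶠ q in 𝓕,
    ε * m q ^ ν ≤ t (replicate ν (F (M a q)) + replicate (n - ν) H)
  zero : ν + 1 ≤ n → ∀ a, ∀ δ : ℝ, 0 < δ → ∀ᶠ q in 𝓕,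
    t (replicate (ν + 1) (M a q) + replicate (n - (ν + 1)) H) ≤ δ * m q ^ (ν + 1)

/-- the bound for the products -/
def BwF (𝓕 : Filter ℕ) (n : ℕ) (t : Multiset α → ℝ) (H : α) (m : ℕ → ℝ) (M : 𝒜 → ℕ → α)
    (F : α → α) (i p : ℕ) (B : ℝ) : Prop :=
  ∀ a : 𝒜, ∀ᶠ q in 𝓕, t (replicate i (F (M a q)) + (replicate p (F H) +
    replicate (n - i - p) H)) ≤ B * m q ^ i

namespace SysF

variable {𝓕 : Filter ℕ} {n : ℕ} {t : Multiset α → ℝ} {W : ℕ → Set (α → α)} {H : α} {m : ℕ → ℝ}
  {M : 𝒜 → ℕ → α} {D : α → ℕ → α} {ν : ℕ} {c ε C₁ : ℝ}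

theorem leW_one (h : SysF 𝓕 n t W H m M D ν c ε C₁) {c' : ℝ} {a b : α} (hab : LeW n t W c' a b) :
    Le n t c' a b := hab 0 id h.one

/-- the degrees are submultiplicative -/
theorem deg_bound (h : SysF 𝓕 n t W H m M D ν c ε C₁) (l : ℕ) :
    ∃ C : ℝ, 0 < C ∧ ∀ F ∈ W l, t (F H ::ₘ replicate (n - 1) H) ≤ C := by
  have hn := h.hn
  have hC1 : ∃ C : ℝ, 0 < C ∧ ∀ F ∈ W 1, t (F H ::ₘ replicate (n - 1) H) ≤ C :=
    ⟨|C₁| + 1, by positivity, fun F hF => (h.H_deg F hF).trans (by
      linarith [le_abs_self C₁])⟩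
  obtain ⟨C1, hC1p, hC1⟩ := hC1
  have hsub : ∀ l k, ∀ F ∈ W l, ∀ G ∈ W k, t (F (G H) ::ₘ replicate (n - 1) H) *
      t (replicate n H) ≤ 4 ^ (n - 1) * (t (G H ::ₘ replicate (n - 1) H) *
        t (F H ::ₘ replicate (n - 1) H)) := by
    intro l k F hF G hG
    have h1 := rkt1 h.pos h.ex (F H) (F (G H)) (replicate (n - 1) H) 0
      (by rw [card_replicate, card_zero]; omega)
    rw [card_replicate, add_zero, add_zero, add_zero] at h1
    obtain ⟨δ, hδ, hd⟩ := h.deg l F hF
    have e1 : replicate (n - 1 + 1) (F H) = (replicate n H).map F := by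
      rw [map_replicate]
      congr 1
      omega
    have e2 : F (G H) ::ₘ replicate (n - 1) (F H) = (G H ::ₘ replicate (n - 1) H).map F := by
      rw [map_cons, map_replicate]
    rw [e1, e2, hd _ (card_replicate _ _), hd _ (by rw [card_cons, card_replicate]; omega)] at h1
    have h2 : δ * (t (F (G H) ::ₘ replicate (n - 1) H) * t (replicate n H)) ≤
        δ * (4 ^ (n - 1) * (t (G H ::ₘ replicate (n - 1) H) *
          t (F H ::ₘ replicate (n - 1) H))) := by
      linarith
    exact le_of_mul_le_mul_left h2 hδ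
  have hH : 0 < t (replicate n H) := h.pos _ (card_replicate _ _)
  induction l with
  | zero =>
    refine ⟨t (replicate n H), hH, fun F hF => ?_⟩
    rw [h.zero_id F hF, id, ← replicate_succ, show n - 1 + 1 = n by omega]
  | succ l ih =>
    obtain ⟨C, hC, hCl⟩ := ih
    refine ⟨4 ^ (n - 1) * (C * C1) / t (replicate n H), by positivity, fun F hF => ?_⟩
    rw [add_comm] at hF
    obtain ⟨F1, hF1, F2, hF2, rfl⟩ := h.split 1 l F hF
    rw [le_div_iff₀ hH]
    refine (hsub 1 l F1 hF1 F2 hF2).trans ?_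
    refine mul_le_mul_of_nonneg_left ?_ (by positivity)
    exact mul_le_mul (hCl F2 hF2) (hC1 F1 hF1)
      (h.pos _ (by rw [card_cons, card_replicate]; omega)).le hC.le

/-- the images of `H` are bounded by multiples of `H` -/
theorem F_le (h : SysF 𝓕 n t W H m M D ν c ε C₁) (l : ℕ) :
    ∃ β : ℝ, 0 < β ∧ ∀ F ∈ W l, Le n t β (F H) H := by
  have hn := h.hn
  obtain ⟨C, hC, hCl⟩ := h.deg_bound l
  have hH : 0 < t (replicate n H) := h.pos _ (card_replicate _ _)
  refine ⟨4 ^ (n - 1) * C / t (replicate n H), by positivity, fun F hF s hs => ?_⟩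
  have h1 := rkt1 h.pos h.ex H (F H) s 0 (by rw [card_zero]; omega)
  have hs' : s.card = n - 1 := by omega
  rw [hs', add_zero, add_zero, add_zero, show n - 1 + 1 = n by omega] at h1
  rw [div_mul_eq_mul_div, le_div_iff₀ hH]
  have h2 : 0 ≤ t (H ::ₘ s) := (h.pos _ (by rw [card_cons]; omega)).le
  refine h1.trans ?_
  rw [mul_assoc]
  refine mul_le_mul_of_nonneg_left ?_ (by positivity)
  exact mul_le_mul_of_nonneg_right (hCl F hF) h2

theorem bw_mono (h : SysF 𝓕 n t W H m M D ν c ε C₁) {F : α → α} {i p : ℕ} {B B' : ℝ}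
    (hB : BwF 𝓕 n t H m M F i p B) (hle : B ≤ B') : BwF 𝓕 n t H m M F i p B' := by
  intro a
  filter_upwards [hB a] with q hq
  exact hq.trans (mul_le_mul_of_nonneg_right hle (pow_nonneg (h.m_pos q).le _))

/-- there is some bound -/
theorem bw_exists (h : SysF 𝓕 n t W H m M D ν c ε C₁) {l : ℕ} {β : ℝ} (hβ0 : 0 < β) {F : α → α}
    (hF : F ∈ W l) (hβ : Le n t β (F H) H) {i p : ℕ} (hip : i + p ≤ n) :
    BwF 𝓕 n t H m M F i p (c ^ i * (β ^ (i + p) * t (replicate n H))) := by
  intro a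
  filter_upwards [h.M_le a] with q hq
  have h1 := (hq l F hF).rep (mul_pos h.hc (h.m_pos q)).le i (replicate p (F H) +
    replicate (n - i - p) H) (by rw [card_add, card_replicate, card_replicate]; omega)
  have h2 := hβ.rep hβ0.le (i + p) (replicate (n - i - p) H)
    (by rw [card_replicate]; omega)
  have e1 : replicate i (F H) + (replicate p (F H) + replicate (n - i - p) H) =
      replicate (i + p) (F H) + replicate (n - i - p) H := by
    rw [← add_assoc, ← replicate_add]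
  have e2 : replicate (i + p) H + replicate (n - i - p) H = replicate n H := by
    rw [← replicate_add]
    congr 1
    omega
  rw [e1] at h1
  rw [e2] at h2
  have h3 := h1.trans (mul_le_mul_of_nonneg_left h2
    (pow_nonneg (mul_pos h.hc (h.m_pos q)).le i))
  refine h3.trans (le_of_eq ?_)
  rw [mul_pow]
  ring

/-- the products with many elements `M` are small -/
theorem bw_zero (h : SysF 𝓕 n t W H m M D ν c ε C₁) {l : ℕ} {F : α → α}
    (hF : F ∈ W l) {i p : ℕ} (hip : i + p ≤ n) (hi : ν < i)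
    {δ : ℝ} (hδ : 0 < δ) : BwF 𝓕 n t H m M F i p δ := by
  intro a
  obtain ⟨k, rfl⟩ := Nat.exists_eq_add_of_lt hi
  obtain ⟨β, hβ0, hβ⟩ := h.F_le l
  have hβF := hβ F hF
  obtain ⟨a', ha'⟩ := h.M_f l F hF a
  obtain ⟨C, hC⟩ : ∃ C : ℝ, C = c ^ k * β ^ p := ⟨_, rfl⟩
  have hC0 : 0 < C := by
    rw [hC]
    have := h.hc
    positivity
  have hν : ν + 1 ≤ n := by omega
  filter_upwards [h.M_le a', h.zero hν a' (δ / C) (div_pos hδ hC0)] with q hq hq2
  have h0 := (h.leW_one (ha' q)).rep zero_le_one (ν + k + 1) (replicate p (F H) +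
    replicate (n - (ν + k + 1) - p) H) (by simp only [card_add, card_replicate]; omega)
  rw [one_pow, one_mul] at h0
  have h1 := (h.leW_one hq).rep (mul_pos h.hc (h.m_pos q)).le k (replicate (ν + 1) (M a' q) +
    (replicate p (F H) + replicate (n - (ν + k + 1) - p) H))
    (by rw [card_add, card_add, card_replicate, card_replicate, card_replicate]; omega)
  have h2 := hβF.rep hβ0.le p (replicate k H + (replicate (ν + 1) (M a' q) +
    replicate (n - (ν + k + 1) - p) H))
    (by rw [card_add, card_add, card_replicate, card_replicate, card_replicate]; omega)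
  have e0 : replicate k (M a' q) + (replicate (ν + 1) (M a' q) +
      (replicate p (F H) + replicate (n - (ν + k + 1) - p) H)) =
      replicate (ν + k + 1) (M a' q) +
      (replicate p (F H) + replicate (n - (ν + k + 1) - p) H) := by
    rw [← add_assoc, ← replicate_add]
    congr 2
    omega
  have e1 : replicate k H + (replicate (ν + 1) (M a' q) +
      (replicate p (F H) + replicate (n - (ν + k + 1) - p) H)) =
      replicate p (F H) + (replicate k H + (replicate (ν + 1) (M a' q) +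
        replicate (n - (ν + k + 1) - p) H)) := by
    rw [add_left_comm (replicate (ν + 1) (M a' q)), add_left_comm (replicate k H)]
  have e2 : replicate p H + (replicate k H + (replicate (ν + 1) (M a' q) +
      replicate (n - (ν + k + 1) - p) H)) =
      replicate (ν + 1) (M a' q) + replicate (n - (ν + 1)) H := by
    rw [add_left_comm (replicate k H), add_left_comm (replicate p H), ← replicate_add,
      ← replicate_add]
    congr 2
    omega
  rw [e0, e1] at h1
  rw [e2] at h2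
  have hm := h.m_pos q
  have hc := h.hc
  calc _ ≤ _ := h0
    _ ≤ (c * m q) ^ k * _ := h1
    _ ≤ (c * m q) ^ k * (β ^ p *
        t (replicate (ν + 1) (M a' q) + replicate (n - (ν + 1)) H)) :=
      mul_le_mul_of_nonneg_left h2 (by positivity)
    _ ≤ (c * m q) ^ k * (β ^ p * (δ / C * m q ^ (ν + 1))) := by gcongr
    _ = δ * m q ^ (ν + k + 1) := by
      have hcn : c ≠ 0 := hc.ne'
      have hbn : β ≠ 0 := hβ0.ne'
      rw [hC, mul_pow]
      have e3 : m q ^ (ν + k + 1) = m q ^ k * m q ^ (ν + 1) := by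
        rw [← pow_add]
        congr 1
        omega
      rw [e3]
      field_simp

/-- the lower bound for the powers of `D` -/
theorem low (h : SysF 𝓕 n t W H m M D ν c ε C₁) {i l v : ℕ} {F : α → α} (hF : F ∈ W l) {b : α}
    {mq : ℝ} (hi : i ≤ ν) (hv : 0 < v)
    (heps : ε * mq ^ ν ≤ t (replicate ν b + replicate (n - ν) H)) :
    ∃ δ : ℝ, 0 < δ ∧ (∀ s : Multiset α, s.card = n → t (s.map F) = δ * t s) ∧
      δ * ((v : ℝ) ^ (n - ν) * (ε * mq ^ ν)) ≤
      t (replicate (n - i) (F (D b v)) + replicate i (F b)) := by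
  have hν := h.hν
  have hv' : (0 : ℝ) < v := by exact_mod_cast hv
  obtain ⟨δ, hδ, hd⟩ := h.deg l F hF
  refine ⟨δ, hδ, hd, ?_⟩
  have hHD : Le n t (1 / v) H (D b v) := by
    intro s hs
    have h1 := h.D_H b v hv s hs
    rw [one_div, inv_mul_eq_div, le_div_iff₀ hv']
    linarith
  have h1 := hHD.rep (by positivity) (n - ν) (replicate ν b)
    (by rw [card_replicate]; omega)
  have h2 := (h.D_M b v hv).rep zero_le_one (ν - i) (replicate (n - ν) (D b v) + replicate i b)
    (by rw [card_add, card_replicate, card_replicate]; omega)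
  have h5 := hd (replicate (n - i) (D b v) + replicate i b)
    (by rw [card_add, card_replicate, card_replicate]; omega)
  have e1 : replicate ν b + replicate (n - ν) H = replicate (n - ν) H +
      replicate ν b := add_comm _ _
  have e2 : replicate (n - ν) (D b v) + replicate ν b = replicate (ν - i) b +
      (replicate (n - ν) (D b v) + replicate i b) := by
    rw [add_left_comm, ← replicate_add]
    congr 2
    omega
  have e3 : replicate (ν - i) (D b v) + (replicate (n - ν) (D b v) + replicate i b) =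
      replicate (n - i) (D b v) + replicate i b := by
    rw [← add_assoc, ← replicate_add]
    congr 2
    omega
  rw [e1] at heps
  rw [e2] at h1
  rw [e3, one_pow, one_mul] at h2
  rw [Multiset.map_add, map_replicate, map_replicate] at h5
  have h6 : (1 / (v : ℝ)) ^ (n - ν) = 1 / (v : ℝ) ^ (n - ν) := by rw [one_div_pow]
  rw [h6, one_div, inv_mul_eq_div, le_div_iff₀ (by positivity)] at h1
  rw [h5]
  refine mul_le_mul_of_nonneg_left ?_ hδ.le
  calc (v : ℝ) ^ (n - ν) * (ε * mq ^ ν)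
      ≤ (v : ℝ) ^ (n - ν) * t (replicate (n - ν) H + replicate ν b) :=
        mul_le_mul_of_nonneg_left heps (by positivity)
    _ = t (replicate (n - ν) H + replicate ν b) * (v : ℝ) ^ (n - ν) := mul_comm _ _
    _ ≤ _ := h1
    _ ≤ _ := h2

/-- **The main inequality.** -/
theorem step (h : SysF 𝓕 n t W H m M D ν c ε C₁) {i l k : ℕ} (hi : i < ν) {bl bk gl gk z : ℝ}
    (hz : 1 ≤ z) (hbl : 0 < bl) (hbk : 0 < bk) (hgl : 0 < gl) (hgk : 0 < gk)
    {F G : α → α} (hF : F ∈ W l) (hG : G ∈ W k)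
    (Hbl : ∀ p, i + p ≤ n → BwF 𝓕 n t H m M F i p bl)
    (Hbk : ∀ p, i + p ≤ n → BwF 𝓕 n t H m M G i p bk)
    (Hgl : ∀ i' p, i < i' → i' ≤ ν → i' + p ≤ n → BwF 𝓕 n t H m M F i' p gl)
    (Hgk : ∀ i' p, i < i' → i' ≤ ν → i' + p ≤ n → BwF 𝓕 n t H m M G i' p gk)
    (hFG : ∀ a b : α, LeW n t W 1 a b → Le n t 1 (F (G a)) (F (G b)))
    (p : ℕ) (hp : i + p ≤ n) :
    BwF 𝓕 n t H m M (F ∘ G) i p
      (4 ^ (n * n + n) / ε * ((bk + z * gk) * (bl + z * gl) / z)) := by
  classical
  have hν := h.hν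
  have hε := h.hε
  have hz0 : 0 < z := by linarith
  obtain ⟨x, hx1, hxz⟩ : ∃ x : ℝ, 1 ≤ x ∧ x ^ (ν - i) = z := by
    refine ⟨z ^ (((ν - i : ℕ) : ℝ)⁻¹), Real.one_le_rpow hz (by positivity), ?_⟩
    exact Real.rpow_inv_natCast_pow hz0.le (by omega)
  have hx0 : 0 < x := by linarith
  have hgen : ∀ (j : ℕ) (E : α → α), E ∈ W j → ∀ (b g : ℝ), 0 < b → 0 < g →
      (∀ p, i + p ≤ n → BwF 𝓕 n t H m M E i p b) →
      (∀ i' p, i < i' → i' ≤ ν → i' + p ≤ n → BwF 𝓕 n t H m M E i' p g) →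
      ∀ a p, i + a + p ≤ n → BwF 𝓕 n t H m M E (i + a) p ((b + z * g) / x ^ a) := by
    intro j E hE b g hb hg H1 H2 a p hap
    rcases Nat.eq_zero_or_pos a with rfl | ha
    · refine h.bw_mono (H1 p (by omega)) ?_
      rw [pow_zero, div_one]
      have := mul_pos hz0 hg
      linarith
    · by_cases hia : i + a ≤ ν
      · refine h.bw_mono (H2 (i + a) p (by omega) hia hap) ?_
        rw [le_div_iff₀ (by positivity)]
        have h1 : x ^ a ≤ z := by
          rw [← hxz]
          exact pow_le_pow_right₀ hx1 (by omega)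
        have h2 := mul_le_mul_of_nonneg_left h1 hg.le
        linarith
      · exact h.bw_zero hE hap (by omega) (by positivity)
  intro a0
  obtain ⟨ae, hae⟩ := h.eps k G hG
  obtain ⟨a1, ha1⟩ := h.dir a0 ae
  obtain ⟨a2, ha2⟩ := h.M_f k G hG a1
  obtain ⟨g, hg⟩ : ∃ g, g = n - i - p := ⟨_, rfl⟩
  obtain ⟨S1, hS1⟩ : ∃ S1, S1 = bk + z * gk := ⟨_, rfl⟩
  obtain ⟨S2, hS2⟩ : ∃ S2, S2 = bl + z * gl := ⟨_, rfl⟩
  have hS1p : 0 < S1 := by rw [hS1]; positivity
  have hS2p : 0 < S2 := by rw [hS2]; positivity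
  have ev1 : ∀ᶠ q in 𝓕, ∀ a ∈ Finset.range (g + 1),
      t (replicate (i + a) (G (M a1 q)) + (replicate p (G H) +
        replicate (n - (i + a) - p) H)) ≤ S1 / x ^ a * m q ^ (i + a) := by
    rw [Filter.eventually_all_finset]
    intro a ha
    rw [Finset.mem_range] at ha
    rw [hS1]
    exact hgen k G hG bk gk hbk hgk Hbk Hgk a p (by omega) a1
  have ev2 : ∀ᶠ q in 𝓕, ∀ a ∈ Finset.range (p + 1),
      t (replicate (i + a) (F (M a2 q)) + (replicate (p - a) (F H) +
        replicate (n - (i + a) - (p - a)) H)) ≤ S2 / x ^ a * m q ^ (i + a) := by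
    rw [Filter.eventually_all_finset]
    intro a ha
    rw [Finset.mem_range] at ha
    rw [hS2]
    exact hgen l F hF bl gl hbl hgl Hbl Hgl a (p - a) (by omega) a2
  have ev3 : ∀ᶠ q in 𝓕, x ≤ m q := h.m_tend.eventually_ge_atTop x
  filter_upwards [ev1, ev2, ev3, hae] with q h1 h2 h3 h4
  have hm := h.m_pos q
  obtain ⟨mq, hmq⟩ : ∃ mq, mq = m q := ⟨_, rfl⟩
  rw [← hmq] at h1 h2 h3 hm h4 ⊢
  obtain ⟨v, hv⟩ : ∃ v : ℕ, v = ⌈mq / x⌉₊ := ⟨_, rfl⟩
  have hmx : 1 ≤ mq / x := by rwa [le_div_iff₀ hx0, one_mul]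
  have hv1 : mq / x ≤ v := by rw [hv]; exact Nat.le_ceil _
  have hv2 : (v : ℝ) ≤ 2 * (mq / x) := by
    have := Nat.ceil_lt_add_one (show 0 ≤ mq / x by positivity)
    rw [← hv] at this
    linarith
  have hvp : (0 : ℝ) < v := by linarith
  have hvn : 0 < v := by exact_mod_cast hvp
  obtain ⟨b, hb⟩ : ∃ b, b = G (M a1 q) := ⟨_, rfl⟩
  obtain ⟨D0, hD0⟩ : ∃ D0, D0 = D b v := ⟨_, rfl⟩
  -- the lower bound
  have heps : ε * mq ^ ν ≤ t (replicate ν b + replicate (n - ν) H) := by
    have b1 := ((ha1 q).2 k G hG).rep zero_le_one ν (replicate (n - ν) H)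
      (by rw [card_replicate]; omega)
    rw [one_pow, one_mul, ← hb] at b1
    exact h4.trans b1
  obtain ⟨δ, hδ, hd, hlow⟩ := h.low hF (b := b) hi.le hvn heps
  rw [← hD0] at hlow
  -- the reverse inequality
  have hrkt := rkt h.pos h.ex (F D0) (replicate p (F (G H)))
    (replicate g H) (replicate i (F b)) (by simp only [card_replicate]; omega)
  simp only [card_replicate] at hrkt
  have epg : p + g = n - i := by omega
  rw [epg] at hrkt
  -- the first factor
  have f1 : t (replicate p (F (G H)) + (replicate g (F D0) +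
      replicate i (F b))) ≤ δ * (2 ^ g * (2 ^ g * (mq / x) ^ g * mq ^ i * S1)) := by
    have a2 := hd (replicate p (G H) + (replicate g D0 + replicate i b))
      (by simp only [card_add, card_replicate]; omega)
    rw [Multiset.map_add, Multiset.map_add, map_replicate, map_replicate, map_replicate] at a2
    rw [a2]
    refine mul_le_mul_of_nonneg_left ?_ hδ.le
    have e3 : replicate p (G H) + (replicate g D0 + replicate i b) =
      replicate g D0 + (replicate i b + replicate p (G H)) := by abel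
    rw [e3, hD0]
    have hadd : ∀ s : Multiset α, s.card + 1 = n →
        t (D b v ::ₘ s) ≤ t (b ::ₘ s) + v * t (H ::ₘ s) :=
      fun s hs => h.D_add b v hvn 0 id h.one s hs
    refine expand hvp hadd g _ _ (by simp only [card_add, card_replicate]; omega) ?_
    intro a ha
    have e4 : replicate a b + (replicate (g - a) H +
        (replicate i b + replicate p (G H))) =
        replicate (i + a) b + (replicate p (G H) +
          replicate (n - (i + a) - p) H) := by
      have e5 : n - (i + a) - p = g - a := by omega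
      rw [e5, replicate_add]
      abel
    rw [e4]
    have b2 := h1 a (Finset.mem_range.2 (by omega))
    rw [← hb] at b2
    have b3 : (v : ℝ) ^ (g - a) ≤ (2 * (mq / x)) ^ (g - a) :=
      pow_le_pow_left₀ hvp.le hv2 _
    have b4 : (v : ℝ) ^ (g - a) * t (replicate (i + a) b + (replicate p (G H) +
          replicate (n - (i + a) - p) H)) ≤
        (2 * (mq / x)) ^ (g - a) * (S1 / x ^ a * mq ^ (i + a)) := by
      refine mul_le_mul b3 b2 ?_ (by positivity)
      exact (h.pos _ (by simp only [card_add, card_replicate]; omega)).le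
    refine b4.trans ?_
    have b5 : (2 * (mq / x)) ^ (g - a) * (S1 / x ^ a * mq ^ (i + a)) =
        2 ^ (g - a) * ((mq / x) ^ g * mq ^ i * S1) := by
      have b6 : (mq / x) ^ g = (mq / x) ^ (g - a) * (mq ^ a / x ^ a) := by
        rw [← div_pow, ← pow_add]
        congr 1
        omega
      rw [b6, mul_pow, pow_add]
      field_simp
    rw [b5]
    have b7 : (2 : ℝ) ^ (g - a) ≤ 2 ^ g := pow_le_pow_right₀ (by norm_num) (by omega)
    have b8 := mul_le_mul_of_nonneg_right b7
      (show 0 ≤ (mq / x) ^ g * mq ^ i * S1 by positivity)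
    linarith
  -- the second factor
  have f2 : t (replicate g H + (replicate p (F D0) + replicate i (F b))) ≤
      2 ^ p * (2 ^ p * (mq / x) ^ p * mq ^ i * S2) := by
    have e3 : replicate g H + (replicate p (F D0) + replicate i (F b)) =
        replicate p (F D0) + (replicate g H + replicate i (F b)) := by
      rw [add_left_comm]
    rw [e3]
    have hadd : ∀ s : Multiset α, s.card + 1 = n →
        t (F D0 ::ₘ s) ≤ t (F b ::ₘ s) + v * t (F H ::ₘ s) := by
      intro s hs
      rw [hD0]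
      exact h.D_add b v hvn l F hF s hs
    refine expand hvp hadd p _ _ (by simp only [card_add, card_replicate]; omega) ?_
    intro a ha
    have b1 := (ha2 q l F hF).rep zero_le_one (i + a) (replicate (p - a) (F H) +
      replicate (n - (i + a) - (p - a)) H)
      (by simp only [card_add, card_replicate]; omega)
    rw [one_pow, one_mul, ← hb] at b1
    have e4 : replicate a (F b) + (replicate (p - a) (F H) +
        (replicate g H + replicate i (F b))) =
        replicate (i + a) (F b) + (replicate (p - a) (F H) +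
        replicate (n - (i + a) - (p - a)) H) := by
      have e6 : n - (i + a) - (p - a) = g := by omega
      rw [e6, replicate_add]
      abel
    rw [e4]
    have b2 := b1.trans (h2 a (Finset.mem_range.2 (by omega)))
    have b3 : (v : ℝ) ^ (p - a) ≤ (2 * (mq / x)) ^ (p - a) :=
      pow_le_pow_left₀ hvp.le hv2 _
    have b4 : (v : ℝ) ^ (p - a) * t (replicate (i + a) (F b) + (replicate (p - a) (F H) +
        replicate (n - (i + a) - (p - a)) H)) ≤
        (2 * (mq / x)) ^ (p - a) * (S2 / x ^ a * mq ^ (i + a)) := by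
      refine mul_le_mul b3 b2 ?_ (by positivity)
      exact (h.pos _ (by simp only [card_add, card_replicate]; omega)).le
    refine b4.trans ?_
    have b5 : (2 * (mq / x)) ^ (p - a) * (S2 / x ^ a * mq ^ (i + a)) =
        2 ^ (p - a) * ((mq / x) ^ p * mq ^ i * S2) := by
      have b6 : (mq / x) ^ p = (mq / x) ^ (p - a) * (mq ^ a / x ^ a) := by
        rw [← div_pow, ← pow_add]
        congr 1
        omega
      rw [b6, mul_pow, pow_add]
      field_simp
    rw [b5]
    have b7 : (2 : ℝ) ^ (p - a) ≤ 2 ^ p := pow_le_pow_right₀ (by norm_num) (by omega)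
    have b8 := mul_le_mul_of_nonneg_right b7
      (show 0 ≤ (mq / x) ^ p * mq ^ i * S2 by positivity)
    linarith
  -- conclusion
  obtain ⟨T, hT⟩ : ∃ T, T = t (replicate p (F (G H)) + (replicate g H +
      replicate i (F b))) := ⟨_, rfl⟩
  have hTp : 0 < T := by
    rw [hT]
    exact h.pos _ (by simp only [card_add, card_replicate]; omega)
  rw [← hT] at hrkt
  have hfin : t (replicate i ((F ∘ G) (M a0 q)) + (replicate p ((F ∘ G) H) +
      replicate (n - i - p) H)) ≤ T := by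
    have b1 := (hFG _ _ (ha1 q).1).rep zero_le_one i
      (replicate p (F (G H)) + replicate g H)
      (by simp only [card_add, card_replicate]; omega)
    rw [one_pow, one_mul, ← hb] at b1
    have e1 : replicate i (F b) + (replicate p (F (G H)) +
        replicate g H) = replicate p (F (G H)) + (replicate g H +
        replicate i (F b)) := by abel
    rw [e1, ← hT] at b1
    rw [← hg]
    exact b1
  refine hfin.trans ?_
  have c0 : T * (δ * ((v : ℝ) ^ (n - ν) * (ε * mq ^ ν))) ≤ 4 ^ (n * g) *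
      (δ * (2 ^ g * (2 ^ g * (mq / x) ^ g * mq ^ i * S1)) *
        (2 ^ p * (2 ^ p * (mq / x) ^ p * mq ^ i * S2))) := by
    refine (mul_le_mul_of_nonneg_left hlow hTp.le).trans (hrkt.trans ?_)
    refine mul_le_mul_of_nonneg_left ?_ (by positivity)
    refine mul_le_mul f1 f2 ?_ (by positivity)
    exact (h.pos _ (by simp only [card_add, card_replicate]; omega)).le
  have c1 : T * ((v : ℝ) ^ (n - ν) * (ε * mq ^ ν)) ≤ 4 ^ (n * g) *
      ((2 ^ g * (2 ^ g * (mq / x) ^ g * mq ^ i * S1)) *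
        (2 ^ p * (2 ^ p * (mq / x) ^ p * mq ^ i * S2))) := by
    refine le_of_mul_le_mul_left ?_ hδ
    calc δ * (T * ((v : ℝ) ^ (n - ν) * (ε * mq ^ ν))) =
        T * (δ * ((v : ℝ) ^ (n - ν) * (ε * mq ^ ν))) := by ring
      _ ≤ _ := c0
      _ = _ := by ring
  have c2 : T * ((mq / x) ^ (n - ν) * (ε * mq ^ ν)) ≤ T * ((v : ℝ) ^ (n - ν) * (ε * mq ^ ν)) := by
    have := pow_le_pow_left₀ (show 0 ≤ mq / x by positivity) hv1 (n - ν)
    gcongr
  have c3 : (4 : ℝ) ^ (n * g) * ((2 ^ g * (2 ^ g * (mq / x) ^ g * mq ^ i * S1)) *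
        (2 ^ p * (2 ^ p * (mq / x) ^ p * mq ^ i * S2))) ≤
      4 ^ (n * n + n) * ((mq / x) ^ (n - i) * mq ^ (i + i) * (S1 * S2)) := by
    have d1 : (4 : ℝ) ^ (n * g) * ((2 ^ g * (2 ^ g * (mq / x) ^ g * mq ^ i * S1)) *
        (2 ^ p * (2 ^ p * (mq / x) ^ p * mq ^ i * S2))) =
        4 ^ (n * g + (g + p)) * ((mq / x) ^ (n - i) * mq ^ (i + i) * (S1 * S2)) := by
      have d2 : (4 : ℝ) ^ (n * g + (g + p)) = 4 ^ (n * g) * ((2 ^ g * 2 ^ g) * (2 ^ p * 2 ^ p)) := by
        rw [pow_add, pow_add, ← mul_pow, ← mul_pow]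
        norm_num
      have d3 : (mq / x) ^ (n - i) = (mq / x) ^ g * (mq / x) ^ p := by
        rw [← pow_add]
        congr 1
        omega
      rw [d2, d3, pow_add mq i i]
      ring
    rw [d1]
    refine mul_le_mul_of_nonneg_right (pow_le_pow_right₀ (by norm_num) ?_) (by positivity)
    have : n * g ≤ n * n := Nat.mul_le_mul_left _ (by omega)
    omega
  have c4 := c2.trans (c1.trans c3)
  -- division
  have e1 : (mq / x) ^ (n - i) = (mq / x) ^ (n - ν) * (mq ^ (ν - i) / z) := by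
    rw [← hxz, ← div_pow, ← pow_add]
    congr 1
    omega
  have e2 : mq ^ (ν - i) * mq ^ (i + i) = mq ^ ν * mq ^ i := by
    rw [← pow_add, ← pow_add]
    congr 1
    omega
  have c5 : ((mq / x) ^ (n - ν) * mq ^ ν) * (T * ε) ≤ ((mq / x) ^ (n - ν) * mq ^ ν) *
      (4 ^ (n * n + n) * (mq ^ i * (S1 * S2) / z)) := by
    calc ((mq / x) ^ (n - ν) * mq ^ ν) * (T * ε)
        = T * ((mq / x) ^ (n - ν) * (ε * mq ^ ν)) := by ring
      _ ≤ 4 ^ (n * n + n) * ((mq / x) ^ (n - i) * mq ^ (i + i) * (S1 * S2)) := c4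
      _ = 4 ^ (n * n + n) * ((mq / x) ^ (n - ν) * (mq ^ (ν - i) * mq ^ (i + i)) *
            (S1 * S2) / z) := by
          rw [e1]
          ring
      _ = ((mq / x) ^ (n - ν) * mq ^ ν) * (4 ^ (n * n + n) * (mq ^ i * (S1 * S2) / z)) := by
          rw [e2]
          ring
  have c6 := le_of_mul_le_mul_left c5 (by positivity)
  rw [← hS1, ← hS2]
  have c7 : (4 : ℝ) ^ (n * n + n) / ε * (S1 * S2 / z) * mq ^ i =
      (4 ^ (n * n + n) * (mq ^ i * (S1 * S2) / z)) / ε := by ring
  rw [c7, le_div_iff₀ hε]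
  exact c6

/-- the growth is at most `L ^ l` for the products with at least `i` elements `M` -/
def GwF (𝓕 : Filter ℕ) (n : ℕ) (t : Multiset α → ℝ) (W : ℕ → Set (α → α)) (H : α) (m : ℕ → ℝ)
    (M : 𝒜 → ℕ → α) (ν i : ℕ) (L : ℝ) : Prop :=
  ∃ A : ℝ, 0 < A ∧ ∀ l, ∀ F ∈ W l, ∀ i' p, i ≤ i' → i' ≤ ν → i' + p ≤ n →
    BwF 𝓕 n t H m M F i' p (A * L ^ l)

theorem growth_step (h : SysF 𝓕 n t W H m M D ν c ε C₁)
    {i : ℕ} (hi : i < ν) {L L' : ℝ} (hL : 0 < L)
    (hlt : L < L') (hG : GwF 𝓕 n t W H m M ν (i + 1) L) : GwF 𝓕 n t W H m M ν i L' := by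
  classical
  obtain ⟨A, hA, hG⟩ := hG
  have hL' : 0 < L' := hL.trans hlt
  have hε := h.hε
  have hc := h.hc
  choose β hβ0 hβ using h.F_le
  obtain ⟨C, hC⟩ : ∃ C : ℝ, C = 4 ^ (n * n + n) / ε := ⟨_, rfl⟩
  have hCp : 0 < C := by rw [hC]; positivity
  obtain ⟨θ, hθ⟩ : ∃ θ : ℝ, θ = L' / L := ⟨_, rfl⟩
  have hθ1 : 1 < θ := by rw [hθ, lt_div_iff₀ hL, one_mul]; exact hlt
  obtain ⟨L0, hL0⟩ := pow_unbounded_of_one_lt (4 * C * A) hθ1
  have hH : 0 < t (replicate n H) := h.pos _ (card_replicate _ _)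
  obtain ⟨bb, hbb⟩ : ∃ bb : ℕ → ℕ → ℝ, ∀ l p, bb l p =
      c ^ i * (β l ^ (i + p) * t (replicate n H)) / L' ^ l := ⟨_, fun _ _ => rfl⟩
  have hbb0 : ∀ l p, 0 ≤ bb l p := fun l p => by
    rw [hbb]
    have := hβ0 l
    positivity
  obtain ⟨A', hA'⟩ : ∃ A' : ℝ, A' = A + ∑ l ∈ Finset.range (2 * L0 + 2),
      ∑ p ∈ Finset.range (n + 1), bb l p := ⟨_, rfl⟩
  have hsum0 : 0 ≤ ∑ l ∈ Finset.range (2 * L0 + 2), ∑ p ∈ Finset.range (n + 1), bb l p :=
    Finset.sum_nonneg fun l _ => Finset.sum_nonneg fun p _ => hbb0 l p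
  have hAA' : A ≤ A' := by rw [hA']; linarith
  have hA'0 : 0 < A' := hA.trans_le hAA'
  have hmain : ∀ l, ∀ F ∈ W l, ∀ p, i + p ≤ n → BwF 𝓕 n t H m M F i p (A' * L' ^ l) := by
    intro l
    induction l using Nat.strong_induction_on with
    | _ l ih =>
      intro F hF p hp
      by_cases hl : l < 2 * L0 + 2
      · refine h.bw_mono (h.bw_exists (hβ0 l) hF (hβ l F hF) hp) ?_
        rw [← div_le_iff₀ (by positivity), ← hbb]
        have h1 : bb l p ≤ ∑ p ∈ Finset.range (n + 1), bb l p :=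
          Finset.single_le_sum (f := fun p => bb l p)
            (fun _ _ => hbb0 _ _) (Finset.mem_range.2 (by omega))
        have h2 : ∑ p ∈ Finset.range (n + 1), bb l p ≤
            ∑ l ∈ Finset.range (2 * L0 + 2), ∑ p ∈ Finset.range (n + 1), bb l p :=
          Finset.single_le_sum (f := fun l => ∑ p ∈ Finset.range (n + 1), bb l p)
            (fun _ _ => Finset.sum_nonneg fun p _ => hbb0 _ _) (Finset.mem_range.2 hl)
        rw [hA']
        linarith
      · obtain ⟨l1, hl1⟩ : ∃ l1, l1 = l / 2 := ⟨_, rfl⟩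
        obtain ⟨l2, hl2⟩ : ∃ l2, l2 = l - l1 := ⟨_, rfl⟩
        have e12 : l1 + l2 = l := by omega
        have hl12 : l1 ≤ l2 := by omega
        have hL01 : L0 ≤ l1 := by omega
        rw [← e12] at hF
        obtain ⟨F1, hF1, F2, hF2, rfl⟩ := h.split l1 l2 F hF
        obtain ⟨z, hz⟩ : ∃ z : ℝ, z = A' * L' ^ l2 / (A * L ^ l2) := ⟨_, rfl⟩
        have hz' : z = A' / A * θ ^ l2 := by
          rw [hz, hθ, div_pow, mul_div_mul_comm]
        have hz1 : 1 ≤ z := by
          rw [hz', ← one_mul (1 : ℝ)]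
          refine mul_le_mul ?_ (one_le_pow₀ hθ1.le) zero_le_one (by positivity)
          rwa [le_div_iff₀ hA, one_mul]
        have hst := h.step hi hz1 (l := l1) (k := l2) (bl := A' * L' ^ l1) (bk := A' * L' ^ l2)
          (gl := A * L ^ l1) (gk := A * L ^ l2) (by positivity) (by positivity) (by positivity)
          (by positivity) hF1 hF2 (ih l1 (by omega) F1 hF1) (ih l2 (by omega) F2 hF2)
          (fun i' p h1 h2 h3 => hG l1 F1 hF1 i' p h1 h2 h3)
          (fun i' p h1 h2 h3 => hG l2 F2 hF2 i' p h1 h2 h3)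
          (fun a b hab => hab (l1 + l2) (F1 ∘ F2) hF) p hp
        rw [← hC] at hst
        refine h.bw_mono hst ?_
        have hz0 : 0 < z := by linarith
        have e1 : z * (A * L ^ l2) = A' * L' ^ l2 := by
          rw [hz]
          field_simp
        have e2 : A' * L' ^ l1 ≤ z * (A * L ^ l1) := by
          have h1 : A' * L' ^ l1 = A' / A * θ ^ l1 * (A * L ^ l1) := by
            rw [hθ, div_pow]
            field_simp
          rw [h1]
          refine mul_le_mul_of_nonneg_right ?_ (by positivity)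
          rw [hz']
          exact mul_le_mul_of_nonneg_left (pow_le_pow_right₀ hθ1.le hl12) (by positivity)
        rw [e1]
        have e3 : (A' * L' ^ l2 + A' * L' ^ l2) * (A' * L' ^ l1 + z * (A * L ^ l1)) / z ≤
            4 * (A' * L' ^ l2) * (A * L ^ l1) := by
          rw [div_le_iff₀ hz0]
          have h2 : (A' * L' ^ l2 + A' * L' ^ l2) * (A' * L' ^ l1 + z * (A * L ^ l1)) ≤
              (A' * L' ^ l2 + A' * L' ^ l2) * (z * (A * L ^ l1) + z * (A * L ^ l1)) := by
            refine mul_le_mul_of_nonneg_left ?_ (by positivity)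
            linarith
          refine h2.trans (le_of_eq ?_)
          ring
        calc C * ((A' * L' ^ l2 + A' * L' ^ l2) * (A' * L' ^ l1 + z * (A * L ^ l1)) / z)
            ≤ C * (4 * (A' * L' ^ l2) * (A * L ^ l1)) := mul_le_mul_of_nonneg_left e3 hCp.le
          _ = A' * L' ^ l2 * ((4 * C * A) * L ^ l1) := by ring
          _ ≤ A' * L' ^ l2 * (θ ^ l1 * L ^ l1) := by
            refine mul_le_mul_of_nonneg_left (mul_le_mul_of_nonneg_right ?_ (by positivity))
              (by positivity)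
            exact hL0.le.trans (pow_le_pow_right₀ hθ1.le hL01)
          _ = A' * L' ^ l := by
            rw [← e12, pow_add, hθ, div_pow]
            field_simp
  refine ⟨A', hA'0, fun l F hF i' p h1 h2 h3 => ?_⟩
  rcases Nat.eq_or_lt_of_le h1 with rfl | h4
  · exact hmain l F hF p h3
  · refine h.bw_mono (hG l F hF i' p h4 h2 h3) ?_
    exact mul_le_mul hAA' (pow_le_pow_left₀ hL.le hlt.le l) (by positivity) hA'0.le

theorem growth_all (h : SysF 𝓕 n t W H m M D ν c ε C₁)
    (k : ℕ) : ∀ {L L' : ℝ}, 0 < L → L < L' →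
    k ≤ ν → GwF 𝓕 n t W H m M ν ν L → GwF 𝓕 n t W H m M ν (ν - k) L' := by
  induction k with
  | zero =>
    intro L L' hL hlt _ hG
    obtain ⟨A, hA, hG⟩ := hG
    refine ⟨A, hA, fun l F hF i' p h1 h2 h3 => h.bw_mono (hG l F hF i' p h1 h2 h3) ?_⟩
    exact mul_le_mul_of_nonneg_left (pow_le_pow_left₀ hL.le hlt.le l) hA.le
  | succ k ih =>
    intro L L' hL hlt hk hG
    have h1 := ih (L := L) (L' := (L + L') / 2) hL (by linarith) (by omega) hG
    have e1 : ν - k = (ν - (k + 1)) + 1 := by omega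
    rw [e1] at h1
    exact h.growth_step (by omega) (by linarith) (by linarith) h1

end SysF

end Pool.Agent.N110.RK
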